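import Pool.Agent.H88.VL.Stm
import Pool.Agent.H88.L.Y143.Mon

/-! # VL-W1: a Poincare algebra embedded in a mw pure one is mw pure (helper95) -/

set_option autoImplicit false

open MvPolynomial Pool.Agent.Y129.TA Pool.Agent.Y129.TB Pool.Agent.Y143 Pool.Agent.X271.TN

universe u v

namespace Pool.Agent.H88.VL.W1

/-- Tate twists of Weil numbers. -/
lemma weil_twist {Ω : Type v} [Field Ω] [CharZero Ω] {q : ℕ} (hq : q ≠ 0) {w : ℤ} {β : Ω}
    (h : IsWeilNumber q w β) (k : ℤ) : IsWeilNumber q (w + 2 * k) ((q : Ω) ^ k * β) := by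
  obtain ⟨h1, h2⟩ := h
  have hqΩ : (q : Ω) ≠ 0 := Nat.cast_ne_zero.2 hq
  have hqC : (q : ℂ) ≠ 0 := Nat.cast_ne_zero.2 hq
  have hqalg : IsAlgebraic ℚ ((q : Ω) ^ k) := by
    have : ((q : Ω) ^ k) = algebraMap ℚ Ω ((q : ℚ) ^ k) := by
      rw [map_zpow₀, map_natCast]
    rw [this]
    exact isAlgebraic_algebraMap _
  refine ⟨hqalg.mul h1, fun z hz => ?_⟩
  set P := minpoly ℚ β with hP
  set Q : Polynomial ℚ := P.comp (Polynomial.C (((q : ℚ) ^ k)⁻¹) * Polynomial.X) with hQ
  have hQ0 : Polynomial.aeval ((q : Ω) ^ k * β) Q = 0 := by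
    rw [hQ, Polynomial.aeval_comp]
    simp only [map_mul, Polynomial.aeval_C, Polynomial.aeval_X, map_inv₀, map_zpow₀, map_natCast]
    rw [inv_mul_cancel_left₀ (zpow_ne_zero _ hqΩ)]
    exact minpoly.aeval ℚ β
  have hdvd := minpoly.dvd ℚ _ hQ0
  have hQz : Polynomial.aeval z Q = 0 := by
    obtain ⟨R, hR⟩ := hdvd
    rw [hR, map_mul, hz, zero_mul]
  rw [hQ, Polynomial.aeval_comp] at hQz
  simp only [map_mul, Polynomial.aeval_C, Polynomial.aeval_X, map_inv₀, map_zpow₀, map_natCast]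
    at hQz
  have h3 := h2 _ hQz
  rw [norm_mul, norm_inv, norm_zpow, Complex.norm_natCast] at h3
  have hqR : (0 : ℝ) < q := Nat.cast_pos.2 (Nat.pos_of_ne_zero hq)
  have h4 : ‖z‖ = (q : ℝ) ^ k * (q : ℝ) ^ ((w : ℝ) / 2) := by
    rw [← h3, ← mul_assoc, mul_inv_cancel₀ (zpow_ne_zero _ hqR.ne'), one_mul]
  rw [h4, ← Real.rpow_intCast, ← Real.rpow_add hqR]
  congr 1
  push_cast
  ring

/-- The operator `N` is zero on the piece of highest degree. -/
theorem N_top {Ω : Type v} [Field Ω] [CharZero Ω] {q d : ℕ} {A : Alg.{u, v} Ω} (hq : 1 < q)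
    (hA : A.IsLocal q) (hP : A.IsPoincare d) {z : A.H} (hz : z ∈ A.gr (2 * d)) : A.N z = 0 := by
  obtain ⟨ω, hω, hω0, hall⟩ := hP.top
  obtain ⟨c, hc⟩ := hall _ (hA.N_mem hω)
  obtain ⟨α, hα⟩ := hall _ (hA.F_mem hω)
  have h1 := hA.N_F ω
  have hα0 : α ≠ 0 := by
    rintro rfl
    rw [zero_smul] at hα
    exact hω0 (hA.F_inj _ hα)
  rw [hα, hc, map_smul, map_smul, hα, hc, smul_smul, smul_smul, smul_smul] at h1
  have h2 : (α * c - q * (c * α)) • ω = 0 := by
    rw [sub_smul, h1, mul_assoc, sub_self]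
  rcases smul_eq_zero.1 h2 with h3 | h3
  · have h4 : α * (c * (1 - q)) = 0 := by linear_combination h3
    have h5 : (1 - (q : Ω)) ≠ 0 := by
      intro h6
      have h7 : (q : Ω) = 1 := by linear_combination -h6
      have h8 : (q : Ω) = ((1 : ℕ) : Ω) := by rw [h7, Nat.cast_one]
      have := Nat.cast_injective h8
      omega
    have h6 : c = 0 := by
      rcases mul_eq_zero.1 h4 with h | h
      · exact absurd h hα0
      · rcases mul_eq_zero.1 h with h | h
        · exact h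
        · exact absurd h h5
    obtain ⟨e, rfl⟩ := hall z hz
    rw [map_smul, hc, h6, zero_smul, smul_zero]
  · exact absurd h3 hω0

theorem main1 : S_W1.{u, v} := by
  intro Ω _ _ q d i A B f t τ hq hA hB hP hid hfgr hfF hfN htN hτ0 hadj hpure
  have hfin := hA.finite
  have hq0 : q ≠ 0 := by omega
  have hqΩ : (q : Ω) ≠ 0 := Nat.cast_ne_zero.2 hq0
  set j := 2 * d - i with hj
  have hij : i + j = 2 * d := by omega
  have hji : 2 * d - j = i := by omega
  -- the pairing
  let P : A.gr i →ₗ[Ω] Module.Dual Ω (A.gr j) :=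
    LinearMap.mk₂ Ω (fun x y => τ ((x : A.H) * (y : A.H)))
      (fun x x' y => by rw [Submodule.coe_add, add_mul, map_add])
      (fun c x y => by rw [Submodule.coe_smul, smul_mul_assoc, map_smul])
      (fun x y y' => by rw [Submodule.coe_add, mul_add, map_add])
      (fun c x y => by rw [Submodule.coe_smul, mul_smul_comm, map_smul])
  let Q : A.gr j →ₗ[Ω] Module.Dual Ω (A.gr i) :=
    LinearMap.mk₂ Ω (fun y x => τ ((x : A.H) * (y : A.H)))
      (fun x x' y => by rw [Submodule.coe_add, mul_add, map_add])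
      (fun c x y => by rw [Submodule.coe_smul, mul_smul_comm, map_smul])
      (fun x y y' => by rw [Submodule.coe_add, add_mul, map_add])
      (fun c x y => by rw [Submodule.coe_smul, smul_mul_assoc, map_smul])
  have hPa : ∀ x y, P x y = τ ((x : A.H) * (y : A.H)) := fun _ _ => rfl
  have hQa : ∀ y x, Q y x = τ ((x : A.H) * (y : A.H)) := fun _ _ => rfl
  have hmem : ∀ (x : A.gr i) (y : A.gr j), (x : A.H) * (y : A.H) ∈ A.gr (2 * d) := by
    intro x y
    rw [← hij]
    exact hA.mul_mem x.2 y.2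
  have hPinj : ∀ x : A.gr i, (∀ y, P x y = 0) → x = 0 := by
    intro x hx
    apply Subtype.ext
    apply hP.perfect i hid x x.2
    intro y hy
    by_contra hne
    exact hτ0 _ (hmem x ⟨y, hy⟩) hne (hx ⟨y, hy⟩)
  have hQinj : ∀ y : A.gr j, (∀ x, Q y x = 0) → y = 0 := by
    intro y hy
    apply Subtype.ext
    apply hP.perfect j (by omega) y y.2
    intro x hx
    rw [hji] at hx
    rw [hA.comm y.2 hx]
    by_contra hne
    have h1 : x * (y : A.H) ≠ 0 := by
      intro h0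
      rw [h0, smul_zero] at hne
      exact hne rfl
    exact hτ0 _ (hmem ⟨x, hx⟩ y) h1 (hy ⟨x, hx⟩)
  have hPi : Function.Injective P := by
    rw [← LinearMap.ker_eq_bot, LinearMap.ker_eq_bot']
    intro x hx
    exact hPinj x fun y => by rw [hx]; rfl
  have hQi : Function.Injective Q := by
    rw [← LinearMap.ker_eq_bot, LinearMap.ker_eq_bot']
    intro x hx
    exact hQinj x fun y => by rw [hx]; rfl
  have hd1 := LinearMap.finrank_le_finrank_of_injective hPi
  have hd2 := LinearMap.finrank_le_finrank_of_injective hQi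
  rw [Subspace.dual_finrank_eq] at hd1 hd2
  have hPs : Function.Surjective P := by
    rw [← LinearMap.injective_iff_surjective_of_finrank_eq_finrank]
    · exact hPi
    · rw [Subspace.dual_finrank_eq]; omega
  -- the retraction
  let R : B.gr (i + 2) →ₗ[Ω] Module.Dual Ω (A.gr j) :=
    LinearMap.mk₂ Ω (fun b y => t ((b : B.H) * f (y : A.H)))
      (fun x x' y => by rw [Submodule.coe_add, add_mul, map_add])
      (fun c x y => by rw [Submodule.coe_smul, smul_mul_assoc, map_smul])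
      (fun x y y' => by rw [Submodule.coe_add, map_add, mul_add, map_add])
      (fun c x y => by rw [Submodule.coe_smul, map_smul, mul_smul_comm, map_smul])
  have hRa : ∀ b y, R b y = t ((b : B.H) * f (y : A.H)) := fun _ _ => rfl
  let e := LinearEquiv.ofBijective P ⟨hPi, hPs⟩
  let g₀ : B.gr (i + 2) →ₗ[Ω] A.H := (A.gr i).subtype ∘ₗ e.symm.toLinearMap ∘ₗ R
  obtain ⟨g, hg⟩ := LinearMap.exists_extend g₀
  have hgm : ∀ b ∈ B.gr (i + 2), g b ∈ A.gr i := by
    intro b hb
    have h1 := LinearMap.congr_fun hg ⟨b, hb⟩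
    have h2 : g b = ((e.symm (R ⟨b, hb⟩) : A.gr i) : A.H) := h1
    rw [h2]
    exact Submodule.coe_mem _
  have hgadj : ∀ b ∈ B.gr (i + 2), ∀ y ∈ A.gr j, τ (g b * y) = t (b * f y) := by
    intro b hb y hy
    have h1 := LinearMap.congr_fun hg ⟨b, hb⟩
    have h2 : g b = ((e.symm (R ⟨b, hb⟩) : A.gr i) : A.H) := h1
    rw [h2]
    have h3 : P (e.symm (R ⟨b, hb⟩)) = R ⟨b, hb⟩ := e.apply_symm_apply _
    have h4 := LinearMap.congr_fun h3 ⟨y, hy⟩
    exact h4
  have huniq : ∀ x ∈ A.gr i, ∀ x' ∈ A.gr i, (∀ y ∈ A.gr j, τ (x * y) = τ (x' * y)) → x = x' := by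
    intro x hx x' hx' h
    have h1 : (⟨x, hx⟩ : A.gr i) = ⟨x', hx'⟩ := by
      apply hPi
      ext y
      exact h y y.2
    exact congrArg Subtype.val h1
  have hgf : ∀ x ∈ A.gr i, g (f x) = x := by
    intro x hx
    apply huniq _ (hgm _ (hfgr i x hx)) _ hx
    intro y hy
    rw [hgadj _ (hfgr i x hx) y hy]
    exact hadj x hx y hy
  have hgN : ∀ b ∈ B.gr (i + 2), g (B.N b) = A.N (g b) := by
    intro b hb
    apply huniq _ (hgm _ (hB.N_mem hb)) _ (hA.N_mem (hgm b hb))
    intro y hy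
    rw [hgadj _ (hB.N_mem hb) y hy]
    have h1 : t (B.N b * f y) = -t (b * f (A.N y)) := by
      have h2 : b * f y ∈ B.gr (2 * (d + 2)) := by
        have := hB.mul_mem hb (hfgr j y hy)
        rwa [show i + 2 + (j + 2) = 2 * (d + 2) by omega] at this
      have h3 := htN _ h2
      rw [hB.N_mul, map_add, hfN] at h3
      exact eq_neg_of_add_eq_zero_left h3
    have h4 : τ (A.N (g b) * y) = -τ (g b * A.N y) := by
      have h5 : g b * y ∈ A.gr (2 * d) := by
        have := hA.mul_mem (hgm b hb) hy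
        rwa [hij] at this
      have h6 := N_top hq hA hP h5
      have h7 := congrArg τ h6
      rw [hA.N_mul, map_add, map_zero] at h7
      exact eq_neg_of_add_eq_zero_left h7
    rw [h1, h4, hgadj b hb _ (hA.N_mem hy)]
  -- the filtration
  obtain ⟨M, hM, hMF, hMw⟩ := hpure
  have hpow : ∀ (a : ℕ) (x : A.H), f ((A.N ^ a) x) = (B.N ^ a) (f x) := by
    intro a
    induction a with
    | zero => intro x; rfl
    | succ a ih =>
      intro x
      rw [pow_succ', Module.End.mul_apply, pow_succ', Module.End.mul_apply, ← ih, hfN]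
  have hNpow : ∀ (a : ℕ) (b : B.H), b ∈ B.gr (i + 2) → (B.N ^ a) b ∈ B.gr (i + 2) := by
    intro a
    induction a with
    | zero => intro x hx; exact hx
    | succ a ih =>
      intro x hx
      rw [pow_succ', Module.End.mul_apply]
      exact hB.N_mem (ih x hx)
  have hgpow : ∀ (a : ℕ) (b : B.H), b ∈ B.gr (i + 2) → g ((B.N ^ a) b) = (A.N ^ a) (g b) := by
    intro a
    induction a with
    | zero => intro x _; rfl
    | succ a ih =>
      intro x hx
      rw [pow_succ', Module.End.mul_apply, pow_succ', Module.End.mul_apply, ← ih x hx,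
        hgN _ (hNpow a x hx)]
  have hANpow : ∀ (a : ℕ) (b : A.H), b ∈ A.gr i → (A.N ^ a) b ∈ A.gr i := by
    intro a
    induction a with
    | zero => intro x hx; exact hx
    | succ a ih =>
      intro x hx
      rw [pow_succ', Module.End.mul_apply]
      exact hA.N_mem (ih x hx)
  have hfun : ∀ (s : ℤ) (x : B.H), x ∈ M s → f (g x) ∈ M s := fun s x hx =>
    IsMonodromyFiltrationOn.functorial hM hM (f ∘ₗ g)
      (fun y hy => hfgr i _ (hgm y hy)) one_ne_zero
      (fun y hy => by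
        rw [one_smul, LinearMap.comp_apply, LinearMap.comp_apply, hgN y hy, hfN]) s hx
  refine ⟨fun a => A.gr i ⊓ (M a).comap f, ⟨?_, ?_, ?_, ?_, ?_, ?_, ?_⟩, ?_, ?_⟩
  · intro a b hab
    exact inf_le_inf_left _ (Submodule.comap_mono (hM.mono hab))
  · obtain ⟨b, hb⟩ := hM.bot
    refine ⟨b, eq_bot_iff.2 fun x hx => ?_⟩
    obtain ⟨h1, h2⟩ := Submodule.mem_inf.1 hx
    rw [Submodule.mem_comap, hb, Submodule.mem_bot] at h2
    rw [Submodule.mem_bot, ← hgf x h1, h2, map_zero]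
  · obtain ⟨b, hb⟩ := hM.top
    refine ⟨b, le_antisymm inf_le_left fun x hx => ?_⟩
    refine Submodule.mem_inf.2 ⟨hx, ?_⟩
    rw [Submodule.mem_comap, hb]
    exact hfgr i x hx
  · intro a
    exact inf_le_left
  · intro a x hx
    obtain ⟨h1, h2⟩ := Submodule.mem_inf.1 hx
    refine Submodule.mem_inf.2 ⟨hA.N_mem h1, ?_⟩
    rw [Submodule.mem_comap, ← hfN]
    exact hM.map a _ h2
  · intro a x hx hNx
    obtain ⟨h1, h2⟩ := Submodule.mem_inf.1 hx
    obtain ⟨h3, h4⟩ := Submodule.mem_inf.1 hNx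
    refine Submodule.mem_inf.2 ⟨h1, ?_⟩
    rw [Submodule.mem_comap, hpow] at h4
    exact hM.inj a _ h2 h4
  · intro a y hy
    obtain ⟨h1, h2⟩ := Submodule.mem_inf.1 hy
    obtain ⟨z, hz, hyz⟩ := hM.surj a (f y) h2
    have hzS : z ∈ B.gr (i + 2) := hM.le _ hz
    refine ⟨g z, Submodule.mem_inf.2 ⟨hgm z hzS, hfun a z hz⟩, ?_⟩
    refine Submodule.mem_inf.2 ⟨sub_mem h1 (hANpow a _ (hgm z hzS)), ?_⟩
    have h3 := hfun _ _ hyz
    rw [map_sub, hgf y h1, hgpow a z hzS] at h3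
    exact h3
  · intro a x hx
    obtain ⟨h1, h2⟩ := Submodule.mem_inf.1 hx
    refine Submodule.mem_inf.2 ⟨hA.F_mem h1, ?_⟩
    have h3 : f (A.F x) = (q : Ω)⁻¹ • B.F (f x) := by
      rw [hfF, smul_smul, inv_mul_cancel₀ hqΩ, one_smul]
    rw [Submodule.mem_comap, h3]
    exact Submodule.smul_mem _ _ (hMF a _ h2)
  · intro a α x hx hx' hα
    obtain ⟨h1, h2⟩ := Submodule.mem_inf.1 hx
    have h3 : f x ∉ M (a - 1) := fun h => hx' (Submodule.mem_inf.2 ⟨h1, h⟩)
    obtain ⟨h4, h5⟩ := Submodule.mem_inf.1 hα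
    have h6 : B.F (f x) - ((q : Ω) * α) • f x ∈ M (a - 1) := by
      have h7 : B.F (f x) - ((q : Ω) * α) • f x = (q : Ω) • f (A.F x - α • x) := by
        rw [map_sub, map_smul, smul_sub, hfF, smul_smul]
      rw [h7]
      exact Submodule.smul_mem _ _ h5
    have h8 := weil_twist hq0 (hMw a _ _ h2 h3 h6) (-1)
    have e1 : (q : Ω) ^ (-1 : ℤ) * ((q : Ω) * α) = α := by
      rw [zpow_neg_one, ← mul_assoc, inv_mul_cancel₀ hqΩ, one_mul]
    have e2 : a + ((i + 2 : ℕ) : ℤ) + 2 * (-1) = a + i := by push_cast; ring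
    rw [e1, e2] at h8
    exact h8

theorem main1b : S_W1b.{u, v} := by
  intro Ω _ _ q i A h
  refine ⟨fun _ => ⊥, ⟨fun _ _ _ => le_rfl, ⟨0, rfl⟩, ⟨0, h.symm⟩, fun _ => bot_le, ?_, ?_, ?_⟩, ?_, ?_⟩
  · intro a x hx
    rw [Submodule.mem_bot] at hx ⊢
    rw [hx, map_zero]
  · intro a x hx _
    exact hx
  · intro a y hy
    refine ⟨0, zero_mem _, ?_⟩
    rw [map_zero, sub_zero]
    exact hy
  · intro a x hx
    rw [Submodule.mem_bot] at hx ⊢
    rw [hx, map_zero]
  · intro a α x hx hx'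
    exact absurd hx hx'

end Pool.Agent.H88.VL.W1
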