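import Pool.Agent.H88.VL.Base

/-!
# The properties of the cohomology, in the form used in the proofs
-/

set_option autoImplicit false

open MvPolynomial Pool.Agent.Y129.TA Pool.Agent.Y129.TB Pool.Agent.Y143 Pool.Agent.X271.TN

universe u v

namespace Pool.Agent.H88.VL

variable {C : Type}

/-- A finite-dimensional graded-commutative algebra with an injective endomorphism `F` and a derivation
`N` of degree zero such that `N F = q F N`. -/
structure Alg.IsLocal {Ω : Type v} [Field Ω] (A : Alg.{u, v} Ω) (q : ℕ) : Prop where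
  finite : Module.Finite Ω A.H
  internal : DirectSum.IsInternal A.gr
  one_mem : (1 : A.H) ∈ A.gr 0
  mul_mem : ∀ {i j : ℕ} {x y : A.H}, x ∈ A.gr i → y ∈ A.gr j → x * y ∈ A.gr (i + j)
  comm : ∀ {i j : ℕ} {x y : A.H}, x ∈ A.gr i → y ∈ A.gr j → x * y = (-1 : Ω) ^ (i * j) • (y * x)
  F_mem : ∀ {i : ℕ} {x : A.H}, x ∈ A.gr i → A.F x ∈ A.gr i
  F_inj : ∀ x : A.H, A.F x = 0 → x = 0
  N_mem : ∀ {i : ℕ} {x : A.H}, x ∈ A.gr i → A.N x ∈ A.gr i
  N_mul : ∀ x y : A.H, A.N (x * y) = A.N x * y + x * A.N y
  N_F : ∀ x : A.H, A.N (A.F x) = (q : Ω) • A.F (A.N x)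

variable {Ω : Type v} [Field Ω]

/-- The tilting property of the cohomology of a closed subset `X` of projective space over `K`, in
dimension `D`: there are a local algebra `A`, mw pure in all degrees (the cohomology of a regular
alteration of a closed subset `Y` of dimension `D` of projective space over `E` in a sufficiently small
neighbourhood of `X`), and a homomorphism `s` from the cohomology of `X` to `A` such that the trace
`t` of the image of the power `h ^ D` of the hyperplane class is not zero. -/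
def Theory.Specializes [Field C] [CharZero Ω] (T : Theory.{u, v} C Ω) (q : ℕ) {ι : Type}
    (X : Set (ι → C)) (D : ℕ) : Prop :=
  ∃ (A : Alg.{u, v} Ω) (s : (T.coh (proj ι X)).H →ₐ[Ω] A.H) (t : A.H →ₗ[Ω] Ω), A.IsLocal q ∧
    (∀ i, A.MWPure q i) ∧ (∀ i x, x ∈ (T.coh (proj ι X)).gr i → s x ∈ A.gr i) ∧
    (∀ x, s ((T.coh (proj ι X)).F x) = A.F (s x)) ∧
    (∀ x, s ((T.coh (proj ι X)).N x) = A.N (s x)) ∧
    (∀ x ∈ A.gr (2 * D), t (A.F x) = (q : Ω) ^ D * t x) ∧ (∀ x ∈ A.gr (2 * D), t (A.N x) = 0) ∧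
    t (s (T.hyp (proj ι X) () ^ D)) ≠ 0

/-- The cohomology is a functor from the closed subsets, defined over `K`, of products of projective
spaces to the local algebras; a morphism acts only through its values on points. -/
structure Theory.IsFunctor [Field C] (K : Type) [Field K] [Algebra K C] (q : ℕ)
    (T : Theory.{u, v} C Ω) : Prop where
  isLocal : ∀ {X : PSet C}, X.IsClosed K → (T.coh X).IsLocal q
  map_mem : ∀ {X Y : PSet C} (f : Mor X Y), X.IsClosed K → Y.IsClosed K → ∀ {i : ℕ} {y},
    y ∈ (T.coh Y).gr i → T.map f y ∈ (T.coh X).gr i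
  map_F : ∀ {X Y : PSet C} (f : Mor X Y), X.IsClosed K → Y.IsClosed K → ∀ y,
    T.map f ((T.coh Y).F y) = (T.coh X).F (T.map f y)
  map_N : ∀ {X Y : PSet C} (f : Mor X Y), X.IsClosed K → Y.IsClosed K → ∀ y,
    T.map f ((T.coh Y).N y) = (T.coh X).N (T.map f y)
  map_id : ∀ {X : PSet C}, X.IsClosed K → ∀ x, T.map (Mor.id X) x = x
  map_comp : ∀ {X Y Z : PSet C} (g : Mor Y Z) (f : Mor X Y), X.IsClosed K → Y.IsClosed K →
    Z.IsClosed K → ∀ z, T.map (g.comp f) z = T.map f (T.map g z)
  map_congr : ∀ {X Y : PSet C} (f g : Mor X Y), X.IsClosed K → Y.IsClosed K →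
    (∀ x ∈ X.pts, Same (f.app x) (g.app x)) → ∀ y, T.map f y = T.map g y

/-- The hyperplane classes are of degree two, `F` multiplies them by `q`, `N` is zero on them, and they
are compatible with the pull-back. -/
structure Theory.HasHyp [Field C] (K : Type) [Field K] [Algebra K C] (q : ℕ)
    (T : Theory.{u, v} C Ω) : Prop where
  hyp_mem : ∀ {X : PSet C}, X.IsClosed K → ∀ j, T.hyp X j ∈ (T.coh X).gr 2
  F_hyp : ∀ {X : PSet C}, X.IsClosed K → ∀ j, (T.coh X).F (T.hyp X j) = (q : Ω) • T.hyp X j
  N_hyp : ∀ {X : PSet C}, X.IsClosed K → ∀ j, (T.coh X).N (T.hyp X j) = 0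
  map_hyp : ∀ {X Y : PSet C} (f : Mor X Y), X.IsClosed K → Y.IsClosed K → ∀ j,
    T.map f (T.hyp Y j) = T.hyp X (f.a j)

/-- Proper descent: if `f : X → Y` is bijective over the complement of the closed subset `B`, then classes
of `X` and `B` with the same restriction to the inverse image of `B` come from a class of `Y`; this
class is unique if the restriction from `X` to the inverse image of `B` is surjective. The cohomology
of the empty set is zero. -/
structure Theory.HasDescent [Field C] (K : Type) [Field K] [Algebra K C]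
    (T : Theory.{u, v} C Ω) : Prop where
  empty : ∀ {X : PSet C}, X.IsClosed K → X.pts = ∅ → ∀ x : (T.coh X).H, x = 0
  descent : ∀ {X Y : PSet C} (f : Mor X Y), X.IsClosed K → Y.IsClosed K →
    ∀ (B : Set (∀ j, Y.κ j → C)) (hB : B ⊆ Y.pts), (Y.sub B).IsClosed K → f.BijOff B →
    ∀ i, ∀ x ∈ (T.coh X).gr i, ∀ b ∈ (T.coh (Y.sub B)).gr i,
      T.map (incl X (f.pre B) fun _ h => h.1) x = T.map (f.restr B) b →
      ∃ y ∈ (T.coh Y).gr i, T.map f y = x ∧ T.map (incl Y B hB) y = b
  descent_unique : ∀ {X Y : PSet C} (f : Mor X Y), X.IsClosed K → Y.IsClosed K →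
    ∀ (B : Set (∀ j, Y.κ j → C)) (hB : B ⊆ Y.pts), (Y.sub B).IsClosed K → f.BijOff B →
    Function.Surjective (T.map (incl X (f.pre B) fun _ h => h.1)) →
    ∀ y, T.map f y = 0 → T.map (incl Y B hB) y = 0 → y = 0

/-- The cohomology of a family of lines `P → V` is free over the cohomology of `V` with the basis `1`,
`h`, where `h` is the hyperplane class of the projective space containing the lines. -/
structure Theory.HasLines [Field C] (K : Type) [Field K] [Algebra K C]
    (T : Theory.{u, v} C Ω) : Prop where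
  lines : ∀ {V : PSet C} {μ : Type} {P : Set (∀ j, ext μ V.κ j → C)}, V.IsClosed K →
    (total V μ P).IsClosed K → ∀ h : IsLineFamily V μ P, ∀ (i : ℕ),
    ∀ x ∈ (T.coh (total V μ P)).gr (i + 2), ∃ a ∈ (T.coh V).gr (i + 2), ∃ b ∈ (T.coh V).gr i,
      x = T.map (down h) a + T.map (down h) b * T.hyp (total V μ P) none
  lines_unique : ∀ {V : PSet C} {μ : Type} {P : Set (∀ j, ext μ V.κ j → C)}, V.IsClosed K →
    (total V μ P).IsClosed K → ∀ h : IsLineFamily V μ P, ∀ a b,
      T.map (down h) a + T.map (down h) b * T.hyp (total V μ P) none = 0 → a = 0 ∧ b = 0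

/-- The cohomology vanishes above twice the dimension; and the tilting property: if the preimage of
every neighbourhood of `X` under the map `y ↦ y♯` contains a closed set `Y` of dimension `D` over `E`
(`Approximable`), then the cohomology of `X` has a homomorphism to a pure algebra. -/
structure Theory.HasTilting {p : ℕ} [Fact p.Prime] {F : Type} [Field C] [Field F]
    (𝓣 : Tilting p C F) (K E : Type) [Field K] [Field E] [Algebra K C] [Algebra E F] [CharZero Ω]
    (q : ℕ) (T : Theory.{u, v} C Ω) : Prop where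
  vanish : ∀ (ι : Type) [Finite ι] (X : Set (ι → C)) (d : ℕ), IsConeOver K X →
    DimLEOver K X d → ∀ i, 2 * d < i → (T.coh (proj ι X)).gr i = ⊥
  tilting : ∀ (ι : Type) [Finite ι] [Nonempty ι] (X : Set (ι → C)) (D : ℕ), IsConeOver K X →
    DimLEOver K X D → Approximable 𝓣.toTiltPair K E X D → T.Specializes q X D

/-- The known properties of the `ℓ`-adic cohomology of the closed subsets, defined over the perfectoid
field `K`, of products of projective spaces over `C`. -/
structure Theory.IsLadic {p : ℕ} [Fact p.Prime] {F : Type} [Field C] [Field F] (𝓣 : Tilting p C F)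
    (K E : Type) [Field K] [Field E] [Algebra K C] [Algebra E F] [CharZero Ω] (q : ℕ)
    (T : Theory.{u, v} C Ω) : Prop extends T.IsFunctor K q, T.HasHyp K q, T.HasDescent K,
      T.HasLines K, T.HasTilting 𝓣 K E q

/-! ### Conversion -/

theorem Alg.Local.isLocal {A : Alg.{u, v} Ω} {q : ℕ} (h : A.Local q) : A.IsLocal q :=
  ⟨h.finite, h.internal, h.one_mem, fun hx hy => h.mul_mem _ _ _ _ hx hy,
    fun hx hy => h.comm _ _ _ _ hx hy, fun hx => h.F_mem _ _ hx, h.F_inj,
    fun hx => h.N_mem _ _ hx, h.N_mul, h.N_F⟩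

theorem Theory.Special.specializes [Field C] [CharZero Ω] {T : Theory.{u, v} C Ω} {q : ℕ}
    {ι : Type} {X : Set (ι → C)} {D : ℕ} (h : T.Special q X D) : T.Specializes q X D := by
  obtain ⟨A, s, t, hA, hp, ht⟩ := h
  exact ⟨A, s.s, t.t, hA.isLocal, hp, s.mem, s.map_F, s.map_N, t.map_F, t.map_N, ht⟩

theorem Theory.Ladic.isLadic {p : ℕ} [Fact p.Prime] {F : Type} [Field C] [Field F]
    {𝓣 : Tilting p C F} {K E : Type} [Field K] [Field E] [Algebra K C] [Algebra E F] [CharZero Ω]
    {q : ℕ} {T : Theory.{u, v} C Ω} (h : T.Ladic K q 𝓣 E) : T.IsLadic 𝓣 K E q where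
  isLocal hX := (h.isLocal hX).isLocal
  map_mem f hX hY i y hy := h.map_mem f hX hY i y hy
  map_F := h.map_F
  map_N := h.map_N
  map_id := h.map_id
  map_comp := h.map_comp
  map_congr := h.map_congr
  hyp_mem := h.hyp_mem
  F_hyp := h.F_hyp
  N_hyp := h.N_hyp
  map_hyp := h.map_hyp
  empty := h.empty
  descent f hX hY B hB hBc hb i x hx b hb' he := h.descent f hX hY B hB hBc hb i x b hx hb' he
  descent_unique := h.descent_unique
  lines hV hP hl i x hx := by
    obtain ⟨a, b, ha, hb, e⟩ := h.lines hV hP hl i x hx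
    exact ⟨a, ha, b, hb, e⟩
  lines_unique := h.lines_unique
  vanish ι _ X d hX hd i hi := by
    rw [Submodule.eq_bot_iff]
    exact fun x hx => h.vanish ι X d hX hd i x hi hx
  tilting ι _ _ X D hX hD ha := (h.tilting ι X D hX hD ha).specializes

end Pool.Agent.H88.VL
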