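import Pool.Agent.H88.VL.Lines

/-!
# Varieties of lines: statements of the steps
-/

set_option autoImplicit false

open MvPolynomial Pool.Agent.Y129.TA Pool.Agent.Y129.TB Pool.Agent.Y143 Pool.Agent.X271.TN

universe u v

namespace Pool.Agent.H88.VL

/-- W1: a Poincare algebra which is embedded, with a shift by two degrees and compatibly with the
pairings, in a mw pure algebra is mw pure. (Retraction of `f` on `gr i`: for `b` in `B.gr (i + 2)` let
`g b` be the element of `A.gr i` with `τ (g b * y) = t (b * f y)` for all `y` in `A.gr (2 d - i)`. It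
commutes with `N`. For the summand lemma see `isMWPure_summand` in
`Pool/Graph/R_pool_sql_team_seeded_1acbe0a2/Y143/Par/Sum.lean`, for Tate twists `IsWeilNumber.twist` in
`Pool/Graph/R_seed8/Y143/Pure.lean`; functoriality of the filtration is in
`Pool.Agent.H88.L.Y143.Mon`.) -/
def S_W1 : Prop := ∀ (Ω : Type v) [Field Ω] [CharZero Ω] (q d i : ℕ) (A B : Alg.{u, v} Ω)
  (f : A.H →ₗ[Ω] B.H) (t : B.H →ₗ[Ω] Ω) (τ : A.H →ₗ[Ω] Ω), 1 < q → A.IsLocal q → B.IsLocal q →
  A.IsPoincare d → i ≤ 2 * d → (∀ j, ∀ x ∈ A.gr j, f x ∈ B.gr (j + 2)) →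
  (∀ x, B.F (f x) = (q : Ω) • f (A.F x)) → (∀ x, B.N (f x) = f (A.N x)) →
  (∀ x ∈ B.gr (2 * (d + 2)), t (B.N x) = 0) → (∀ x ∈ A.gr (2 * d), x ≠ 0 → τ x ≠ 0) →
  (∀ x ∈ A.gr i, ∀ y ∈ A.gr (2 * d - i), t (f x * f y) = τ (x * y)) →
  B.MWPure q (i + 2) → A.MWPure q i

/-- W1b -/
def S_W1b : Prop := ∀ (Ω : Type v) [Field Ω] [CharZero Ω] (q i : ℕ) (A : Alg.{u, v} Ω),
  A.gr i = ⊥ → A.MWPure q i

/-- W2a -/
def S_W2a : Prop := ∀ (C : Type) [Field C] (m : ℕ) (x y : Fin (m + 1) → C),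
  wedge x y ≠ 0 ↔ LinearIndependent C ![x, y]

/-- W2b: the points of the line through `u` and `w` -/
def S_W2b : Prop := ∀ (C : Type) [Field C] (m : ℕ) (u w x : Fin (m + 1) → C),
  LinearIndependent C ![u, w] →
    ((∀ i j k : Fin (m + 1), x i * wedge u w (j, k) - x j * wedge u w (i, k) +
      x k * wedge u w (i, j) = 0) ↔ ∃ s t : C, x = s • u + t • w)

/-- W2c -/
def S_W2c : Prop := ∀ (C : Type) [Field C] (m : ℕ) (u w : Fin (m + 1) → C) (s t s' t' : C),
  wedge (s • u + t • w) (s' • u + t' • w) = (s * t' - s' * t) • wedge u w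

/-- W3a -/
def S_W3a : Prop := ∀ (C K : Type) [Field C] [Field K] [Algebra K C] (ι : Type) [Finite ι]
  (X : Set (ι → C)), IsConeOver K X → (proj ι X).IsClosed K

/-- W3b: the inverse image of a closed set is closed (substitute the coordinates in the equations) -/
def S_W3b : Prop := ∀ (C K : Type) [Field C] [Field K] [Algebra K C] (X Y : PSet C) (f : Mor X Y)
  (B : Set (∀ j, Y.κ j → C)), X.IsClosed K → (Y.sub B).IsClosed K → (X.sub (f.pre B)).IsClosed K

/-- W3c -/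
def S_W3c : Prop := ∀ (C K : Type) [Field C] [Field K] [Algebra K C] (X : PSet C),
  X.IsClosed K → (X.sub ∅).IsClosed K

/-- W4: the incidence variety (use W2a, W2b) -/
def S_W4 : Prop := ∀ (C K : Type) [Field C] [Field K] [Algebra K C] (m : ℕ) (V : PSet C) (j₀ : V.J)
  (e₀ : Fin (m + 1) × Fin (m + 1) ≃ V.κ j₀), V.IsClosed K →
  (∀ x ∈ V.pts, ∃ u w : Fin (m + 1) → C, (fun t => x j₀ (e₀ t)) = wedge u w) →
  (total V (Fin (m + 1)) (lineSet V j₀ e₀)).IsClosed K ∧
    IsLineFamily V (Fin (m + 1)) (lineSet V j₀ e₀)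

/-- W5a -/
def S_W5a : Prop := ∀ (C K : Type) [Field C] [Field K] [Algebra K C] (m c : ℕ)
  (h : Fin c → MvPolynomial (Crd fun _ : Fin 2 => m) K) (a : Fin c → Fin 2 → ℕ),
  (∀ j, MultiHom (h j) (a j)) → (ZS (C := C) h).IsClosed K

/-- W5b -/
def S_W5b : Prop := ∀ (C K : Type) [Field C] [Field K] [Algebra K C] (m c : ℕ)
  (h : Fin c → MvPolynomial (Crd fun _ : Fin 2 => m) K) (a : Fin c → Fin 2 → ℕ),
  (∀ j, MultiHom (h j) (a j)) → ((ZS (C := C) h).sub (diagZ h)).IsClosed K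

/-- W5c -/
def S_W5c : Prop := ∀ (C K : Type) [Field C] [Field K] [Algebra K C] (m c : ℕ)
  (h : Fin c → MvPolynomial (Crd fun _ : Fin 2 => m) K) (a : Fin c → Fin 2 → ℕ),
  (∀ j, MultiHom (h j) (a j)) → (∀ j, a j ≠ 0) → IsConeOver K (diagCone (C := C) h)

/-- W5d -/
def S_W5d : Prop := ∀ (C K : Type) [Field C] [Field K] [Algebra K C] (m c : ℕ)
  (h : Fin c → MvPolynomial (Crd fun _ : Fin 2 => m) K) (a : Fin c → Fin 2 → ℕ),
  (∀ j, MultiHom (h j) (a j)) → (GS (C := C) h).IsClosed K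

/-- The factors of the map `(L, x, y) ↦ (x, y)`. -/
def rhoA : Fin 2 → Option (Option Unit)
  | 0 => some none
  | 1 => none

/-- The coordinates of the map `(L, x, y) ↦ (x, y)`. -/
def rhoE (m : ℕ) : ∀ j : Fin 2, Fin (m + 1) ≃
    ext (Fin (m + 1)) (ext (Fin (m + 1)) fun _ : Unit => Fin (m + 1) × Fin (m + 1)) (rhoA j)
  | 0 => Equiv.refl _
  | 1 => Equiv.refl _

/-- W6a: `(x, y)` is in `ZS h` for all `(L, x, y)` in `QS X`. (For different `x`, `y` by `cut`. If
`y = c x` let `z` be another point of the line; then `h (x, c x + t z) = 0` for all `t ≠ 0`, hence also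
for `t = 0`, since `C` is infinite.) -/
def S_W6a : Prop := ∀ (C K : Type) [Field C] [Field K] [Algebra K C] [Infinite C] (m c : ℕ)
  (X : Set (Fin (m + 1) × Fin (m + 1) → C)) (h : Fin c → MvPolynomial (Crd fun _ : Fin 2 => m) K)
  (a : Fin c → Fin 2 → ℕ), IsCutOut K X h a → ∀ z ∈ (QS X).pts,
    (fun j i => z (rhoA j) (rhoE m j i)) ∈ (ZS (C := C) h).pts

/-- W6b: the map `(L, x, y) ↦ (x, y)` is bijective over the pairs of different points. -/
def S_W6b : Prop := ∀ (C K : Type) [Field C] [Field K] [Algebra K C] (m c : ℕ)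
  (X : Set (Fin (m + 1) × Fin (m + 1) → C)) (h : Fin c → MvPolynomial (Crd fun _ : Fin 2 => m) K)
  (a : Fin c → Fin 2 → ℕ), IsCutOut K X h a → ∀ ρ : Mor (QS X) (ZS (C := C) h), ρ.a = rhoA →
    (∀ x j i, ρ.app x j i = x (rhoA j) (rhoE m j i)) → ρ.BijOff (diagZ h)

/-- W7a: the Segre coordinates: `s` proportional to `(x_i y_j)` is a point of the image of `ZS h`. -/
def S_W7a : Prop := ∀ (C K : Type) [Field C] [Field K] [Algebra K C] (m c : ℕ)
  (h : Fin c → MvPolynomial (Crd fun _ : Fin 2 => m) K) (a : Fin c → Fin 2 → ℕ),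
  (∀ j, MultiHom (h j) (a j)) → (∀ z ∈ (GS (C := C) h).pts, z none ∈ mimage C h (segre K m)) ∧
  ∀ (f : Mor (GS (C := C) h) (proj (Fin (segN m + 1)) (mimage C h (segre K m)))),
    (∀ x j i, f.app x j i = x none i) → f.BijOff ∅

/-- W7b -/
def S_W7b : Prop := ∀ (C K : Type) [Field C] [Field K] [Algebra K C] (m c : ℕ)
  (h : Fin c → MvPolynomial (Crd fun _ : Fin 2 => m) K)
  (f : Mor (GS (C := C) h) (ZS h)), (∀ x j i, f.app x j i = x (some j) i) → f.BijOff ∅

/-- W8: the approximation of the Segre image, from `Pool.Agent.X271.TN.main`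
(`Pool/Agent/H88/L/X271/TmFin.lean`) -/
def S_W8 : Prop := ∀ (p : ℕ) [Fact p.Prime] (C F K E : Type) [Field C] [Field F] [CharP F p]
  [Field K] [Field E] [Algebra K C] [Algebra E F] [IsAlgClosed C] [IsAlgClosed F]
  (𝓣 : Tilting p C F) (_ : BaseField 𝓣 K E) (m c d : ℕ)
  (h : Fin c → MvPolynomial (Crd fun _ : Fin 2 => m) K) (a : Fin c → Fin 2 → ℕ),
  (∀ j, MultiHom (h j) (a j)) → Positive (fun _ : Fin 2 => m) a (fun _ => 1) d →
  DimLEOver K (mimage C h (segre K m)) d →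
  IsConeOver K (mimage C h (segre K m)) ∧
    Approximable 𝓣.toTiltPair K E (mimage C h (segre K m)) d

end Pool.Agent.H88.VL
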