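import Pool.Agent.H88.L.Y143.MonDefs

/-!
# Graded algebras with operators
-/

set_option autoImplicit false

open Pool.Agent.Y143

universe u v

namespace Pool.Agent.H88.VL

/-! ### Graded algebras with operators -/

/-- An algebra `H` with graded pieces `gr i` and operators `F` and `N`. -/
structure Alg (Ω : Type v) [Field Ω] where
  /-- the algebra -/
  H : Type u
  [ring : Ring H]
  [alg : Algebra Ω H]
  /-- the graded pieces -/
  gr : ℕ → Submodule Ω H
  /-- the action of a geometric Frobenius element -/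
  F : H →ₐ[Ω] H
  /-- the logarithm of the monodromy -/
  N : H →ₗ[Ω] H

attribute [instance] Alg.ring Alg.alg

variable {Ω : Type v} [Field Ω]

/-- The element `x` is homogeneous of degree `i`. -/
def Alg.In (A : Alg.{u, v} Ω) (i : ℕ) (x : A.H) : Prop := x ∈ A.gr i

/-- Zero. -/
def Alg.zero (A : Alg.{u, v} Ω) : A.H := 0

/-- The sum. -/
def Alg.add (A : Alg.{u, v} Ω) (x y : A.H) : A.H := x + y

/-- The product. -/
def Alg.mul (A : Alg.{u, v} Ω) (x y : A.H) : A.H := x * y

/-- The product with a scalar. -/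
def Alg.smul (A : Alg.{u, v} Ω) (c : Ω) (x : A.H) : A.H := c • x

/-- The Frobenius element acting on `x`. -/
def Alg.frob (A : Alg.{u, v} Ω) (x : A.H) : A.H := A.F x

/-- The monodromy operator acting on `x`. -/
def Alg.mono (A : Alg.{u, v} Ω) (x : A.H) : A.H := A.N x

/-- A finite-dimensional graded-commutative algebra with an injective endomorphism `F` and a derivation
`N` of degree zero such that `N F = q F N`. -/
structure Alg.Local (A : Alg.{u, v} Ω) (q : ℕ) : Prop where
  finite : Module.Finite Ω A.H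
  internal : DirectSum.IsInternal A.gr
  one_mem : A.In 0 1
  mul_mem : ∀ i j x y, A.In i x → A.In j y → A.In (i + j) (A.mul x y)
  comm : ∀ i j x y, A.In i x → A.In j y → A.mul x y = A.smul ((-1) ^ (i * j)) (A.mul y x)
  F_mem : ∀ i x, A.In i x → A.In i (A.frob x)
  F_inj : ∀ x, A.frob x = A.zero → x = A.zero
  N_mem : ∀ i x, A.In i x → A.In i (A.mono x)
  N_mul : ∀ x y, A.mono (A.mul x y) = A.add (A.mul (A.mono x) y) (A.mul x (A.mono y))
  N_F : ∀ x, A.mono (A.frob x) = A.smul q (A.frob (A.mono x))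

/-- The homomorphisms which respect the degrees and the operators. -/
structure Alg.Hom (A B : Alg.{u, v} Ω) where
  /-- the homomorphism -/
  s : A.H →ₐ[Ω] B.H
  mem : ∀ i x, A.In i x → B.In i (s x)
  map_F : ∀ x, s (A.frob x) = B.frob (s x)
  map_N : ∀ x, s (A.mono x) = B.mono (s x)

/-- The traces in dimension `D`: the linear forms for which `F` acts on the piece of degree `2 D` by
`q ^ D` and `N` by zero. -/
structure Alg.Trace (A : Alg.{u, v} Ω) (q D : ℕ) where
  /-- the linear form -/
  t : A.H →ₗ[Ω] Ω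
  map_F : ∀ x, A.In (2 * D) x → t (A.frob x) = (q : Ω) ^ D * t x
  map_N : ∀ x, A.In (2 * D) x → t (A.mono x) = 0

/-- The piece of degree `i` is mw pure of weight `i`: all eigenvalues of `F` on the graded piece
`M_a / M_(a - 1)` of the monodromy filtration `M` of `N` on `gr i` are `q`-Weil numbers of weight
`a + i`. -/
def Alg.MWPure [CharZero Ω] (A : Alg.{u, v} Ω) (q i : ℕ) : Prop :=
  ∃ M : ℤ → Submodule Ω A.H, IsMonodromyFiltrationOn (A.gr i) A.N M ∧
    (∀ a x, x ∈ M a → A.F x ∈ M a) ∧
    ∀ (a : ℤ) (α : Ω) (x : A.H), x ∈ M a → x ∉ M (a - 1) → A.F x - α • x ∈ M (a - 1) →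
      IsWeilNumber q (a + i) α

/-- Poincare duality in dimension `d`: the piece of degree `2 d` is of dimension one, the ones of larger
degrees are zero, and the pairing of the pieces of degrees `i` and `2 d - i` is not degenerate. -/
structure Alg.IsPoincare (A : Alg.{u, v} Ω) (d : ℕ) : Prop where
  top : ∃ ω ∈ A.gr (2 * d), ω ≠ 0 ∧ ∀ x ∈ A.gr (2 * d), ∃ c : Ω, x = c • ω
  above : ∀ i, 2 * d < i → A.gr i = ⊥
  perfect : ∀ i ≤ 2 * d, ∀ x ∈ A.gr i, (∀ y ∈ A.gr (2 * d - i), x * y = 0) → x = 0

end Pool.Agent.H88.VL
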