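import Pool.Agent.H88.VL.Chase5

/-!
# Varieties of lines: assembly
-/

set_option autoImplicit false

open MvPolynomial Pool.Agent.Y129.TA Pool.Agent.Y129.TB Pool.Agent.Y143 Pool.Agent.X271.TN

universe u v

namespace Pool.Agent.H88.VL

/-- all steps -/
structure Steps : Prop where
  w1 : S_W1.{u, v}
  w1b : S_W1b.{u, v}
  w3a : S_W3a
  w3b : S_W3b
  w3c : S_W3c
  w4 : S_W4
  w5a : S_W5a
  w5b : S_W5b
  w5c : S_W5c
  w5d : S_W5d
  w6a : S_W6a
  w6b : S_W6b
  w7a : S_W7a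
  w7b : S_W7b
  w8 : S_W8

variable {C : Type} [Field C] {m : ℕ}
  {Ω : Type v} [Field Ω] [CharZero Ω] {p : ℕ} [Fact p.Prime] {F : Type} [Field F]
  {𝓣 : Tilting p C F} {K E : Type} [Field K] [Field E] [Algebra K C] [Algebra E F] {q : ℕ}
  {T : Theory.{u, v} C Ω} {c : ℕ} {X : Set (Fin (m + 1) × Fin (m + 1) → C)}
  {h : Fin c → MvPolynomial (Crd fun _ : Fin 2 => m) K} {a : Fin c → Fin 2 → ℕ}

theorem setup_of (W : Steps.{u, v}) [Infinite C] (hX : IsCutOut K X h a) : Setup K X h := by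
  have cX : (XS X).IsClosed K := W.w3a C K _ X hX.cone
  obtain ⟨cP, L1⟩ := W.w4 C K m (XS X) () (Equiv.refl _) cX fun x hx => hX.lines _ hx.2
  obtain ⟨cQ, L2⟩ := W.w4 C K m (PS X) (some ()) (Equiv.refl _) cP fun x hx =>
    hX.lines _ hx.1.2
  have hm := W.w6a C K m c X h a hX
  have cB := W.w5b C K m c h a hX.hom
  exact
    { hm := hm
      cX := cX
      cP := cP
      cQ := cQ
      cZ := W.w5a C K m c h a hX.hom
      cB := cB
      cE := W.w3b C K _ _ (rho X h hm) (diagZ h) cQ cB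
      L1 := L1
      L2 := L2
      bj := W.w6b C K m c X h a hX (rho X h hm) rfl fun _ _ _ => rfl }

theorem main_of (W : Steps.{u, v}) [IsAlgClosed C] [IsAlgClosed F] [CharP F p]
    (hB : BaseField 𝓣 K E) (hq : 1 < q) (hT : T.IsLadic 𝓣 K E q) (hX : IsCutOut K X h a) {d : ℕ}
    (hpos : Positive (fun _ : Fin 2 => m) a (fun _ => 1) (d + 2))
    (hdim : DimLEOver K (mimage C h (segre K m)) (d + 2))
    (hdiag : DimLEOver K (diagCone (C := C) h) (d + 1))
    (hP : (T.coh (XS X)).IsPoincare d) (i : ℕ) : (T.coh (XS X)).MWPure q i := by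
  have hinf : Infinite C := IsAlgClosed.instInfinite
  have S := setup_of W hX
  by_cases hi : i ≤ 2 * d
  · have ha : ∀ j, a j ≠ 0 := by
      obtain ⟨τ, h1, -, -⟩ := hpos
      intro j h0
      have := h1 j
      rw [h0] at this
      exact lt_irrefl _ this
    obtain ⟨hcone, happ⟩ := W.w8 p C F K E 𝓣 hB m c (d + 2) h a hX.hom hpos hdim
    have cG := W.w5d C K m c h a hX.hom
    have cY := W.w3a C K _ _ hcone
    let f : Mor (GS (C := C) h) (ZS h) := ⟨some, fun _ => Equiv.refl _, fun z hz => hz.1⟩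
    let g : Mor (GS (C := C) h) (proj (Fin (segN m + 1)) (mimage C h (segre K m))) :=
      ⟨fun _ => none, fun _ => Equiv.refl _, fun z hz =>
        ⟨hz.2.1, (W.w7a C K m c h a hX.hom).1 z hz⟩⟩
    have hf : f.BijOff ∅ := W.w7b C K m c h f fun _ _ _ => rfl
    have hg : g.BijOff ∅ := (W.w7a C K m c h a hX.hom).2 g fun _ _ _ => rfl
    have hL := linked_of hT W.w3b W.w3c cG S.cZ cY f hf g hg
      (hT.tilting (Fin (segN m + 1)) _ (d + 2) hcone hdim happ)
    exact pure_of_linked hT S hP W.w3a W.w3b W.w3c (W.w5c C K m c h a hX.hom ha) hdiag hq W.w1 hL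
      i hi
  · exact W.w1b Ω q i _ (hP.above i (by omega))

end Pool.Agent.H88.VL
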