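import Pool.Agent.H88.L.X271.TmDef
import Pool.Agent.H88.VL.Alg

/-!
# The cohomology of closed subsets of products of projective spaces: definitions
-/

set_option autoImplicit false

open MvPolynomial Pool.Agent.Y129.TA Pool.Agent.Y129.TB Pool.Agent.Y143 Pool.Agent.X271.TN

universe u v

namespace Pool.Agent.H88.VL

/-! ### Closed subsets of products of projective spaces -/

/-- A set of points of a product of projective spaces over `C`: `J` is the set of the factors, `κ j` the
set of the homogeneous coordinates of the factor `j`, and `pts` consists of the homogeneous coordinates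
of the points. -/
structure PSet (C : Type) where
  /-- the factors -/
  J : Type
  /-- the coordinates -/
  κ : J → Type
  /-- the points -/
  pts : Set (∀ j, κ j → C)

/-- `x` and `y` are homogeneous coordinates of the same point. -/
def Same {C : Type} [Field C] {J : Type} {κ : J → Type} (x y : ∀ j, κ j → C) : Prop :=
  ∀ j, ∃ c : C, c ≠ 0 ∧ y j = c • x j

variable {C : Type}

/-- The set is closed and defined over `K`: it is the set of the points of the product of projective
spaces where certain polynomials over `K` in the coordinates vanish. -/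
structure PSet.IsClosed (K : Type) [Field K] [Field C] [Algebra K C] (X : PSet C) : Prop where
  finJ : Finite X.J
  finκ : ∀ j, Finite (X.κ j)
  ne_zero : ∀ x ∈ X.pts, ∀ j, x j ≠ 0
  same : ∀ x ∈ X.pts, ∀ y, Same x y → y ∈ X.pts
  eqs : ∃ S : Set (MvPolynomial ((j : X.J) × X.κ j) K), ∀ x : ∀ j, X.κ j → C, (∀ j, x j ≠ 0) →
    (x ∈ X.pts ↔ ∀ P ∈ S, aeval (fun t : (j : X.J) × X.κ j => x t.1 t.2) P = 0)

/-- The morphisms which forget, repeat and rename factors and rename coordinates: the coordinates of the
factor `j` of the image are the ones of the factor `a j`, renamed by `e j`. -/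
structure Mor (X Y : PSet C) where
  /-- the factors -/
  a : Y.J → X.J
  /-- the coordinates -/
  e : ∀ j, Y.κ j ≃ X.κ (a j)
  maps : ∀ x ∈ X.pts, (fun j i => x (a j) (e j i)) ∈ Y.pts

/-- The image of a point. -/
def Mor.app {X Y : PSet C} (f : Mor X Y) (x : ∀ j, X.κ j → C) : ∀ j, Y.κ j → C :=
  fun j i => x (f.a j) (f.e j i)

/-- The identity. -/
def Mor.id (X : PSet C) : Mor X X := ⟨fun j => j, fun _ => Equiv.refl _, fun _ h => h⟩

/-- The composition. -/
def Mor.comp {X Y Z : PSet C} (g : Mor Y Z) (f : Mor X Y) : Mor X Z where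
  a j := f.a (g.a j)
  e j := (g.e j).trans (f.e (g.a j))
  maps x hx := g.maps _ (f.maps x hx)

/-- The subset `B`. -/
def PSet.sub (Y : PSet C) (B : Set (∀ j, Y.κ j → C)) : PSet C := ⟨Y.J, Y.κ, B⟩

/-- The inclusion of the subset `B` of `Y`. -/
def incl (Y : PSet C) (B : Set (∀ j, Y.κ j → C)) (h : B ⊆ Y.pts) : Mor (Y.sub B) Y :=
  ⟨fun j => j, fun _ => Equiv.refl _, fun _ hx => h hx⟩

/-- The inverse image of `B`. -/
def Mor.pre {X Y : PSet C} (f : Mor X Y) (B : Set (∀ j, Y.κ j → C)) : Set (∀ j, X.κ j → C) :=
  {x | x ∈ X.pts ∧ f.app x ∈ B}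

/-- The restriction of the morphism to the inverse image of `B`. -/
def Mor.restr {X Y : PSet C} (f : Mor X Y) (B : Set (∀ j, Y.κ j → C)) :
    Mor (X.sub (f.pre B)) (Y.sub B) :=
  ⟨f.a, f.e, fun _ hx => hx.2⟩

/-- The morphism is bijective over the complement of `B`. -/
structure Mor.BijOff [Field C] {X Y : PSet C} (f : Mor X Y) (B : Set (∀ j, Y.κ j → C)) : Prop where
  surj : ∀ y ∈ Y.pts, y ∉ B → ∃ x ∈ X.pts, Same (f.app x) y
  inj : ∀ x ∈ X.pts, ∀ x' ∈ X.pts, f.app x ∉ B → Same (f.app x) (f.app x') → Same x x'

/-- The coordinates of the product with a further factor `none` with coordinates indexed by `μ`. -/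
def ext (μ : Type) {J : Type} (κ : J → Type) : Option J → Type
  | none => μ
  | some j => κ j

/-- The point with the coordinates `y` in the further factor. -/
def glue {μ : Type} {J : Type} {κ : J → Type} (y : μ → C) (x : ∀ j, κ j → C) :
    ∀ j, ext μ κ j → C
  | none => y
  | some j => x j

/-- The subset `P` of the product of the surroundings of `V` and a projective space. -/
def total (V : PSet C) (μ : Type) (P : Set (∀ j, ext μ V.κ j → C)) : PSet C :=
  ⟨Option V.J, ext μ V.κ, P⟩

/-- `P` is a family of lines, parametrised by `V`, in the projective space with coordinates indexed by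
`μ`: for every point of `V` the fibre is a line, the projective space of a vector space of dimension
two. -/
structure IsLineFamily [Field C] (V : PSet C) (μ : Type) (P : Set (∀ j, ext μ V.κ j → C)) :
    Prop where
  base : ∀ z ∈ P, (fun j => z (some j)) ∈ V.pts
  fibre : ∀ x ∈ V.pts, ∃ u w : μ → C, LinearIndependent C ![u, w] ∧
    ∀ y, glue y x ∈ P ↔ y ≠ 0 ∧ ∃ s t : C, y = s • u + t • w

/-- The projection of the family to its base. -/
def down [Field C] {V : PSet C} {μ : Type} {P : Set (∀ j, ext μ V.κ j → C)}
    (h : IsLineFamily V μ P) : Mor (total V μ P) V :=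
  ⟨some, fun _ => Equiv.refl _, fun x hx => h.base x hx⟩

/-- The subset of projective space with the cone `X`. -/
def proj [Field C] (ι : Type) (X : Set (ι → C)) : PSet C :=
  ⟨Unit, fun _ => ι, {x | x () ≠ 0 ∧ x () ∈ X}⟩

variable {Ω : Type v} [Field Ω]

/-! ### The cohomology -/

/-- Cohomology algebras of the sets of points of products of projective spaces, with the pull-back maps
and the hyperplane classes of the factors. -/
structure Theory (C : Type) (Ω : Type v) [Field Ω] where
  /-- the cohomology -/
  coh : PSet C → Alg.{u, v} Ω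
  /-- the pull-back -/
  map : ∀ {X Y : PSet C}, Mor X Y → ((coh Y).H →ₐ[Ω] (coh X).H)
  /-- the hyperplane classes -/
  hyp : ∀ X : PSet C, X.J → (coh X).H

variable (K : Type) [Field K] [Field C] [Algebra K C] (q : ℕ) (T : Theory.{u, v} C Ω)

/-- The pull-back of a class. -/
def Theory.pull {C : Type} (T : Theory.{u, v} C Ω) {X Y : PSet C} (f : Mor X Y) (y : (T.coh Y).H) :
    (T.coh X).H := T.map f y

/-- The tilting property of the cohomology of a closed subset `X` of projective space over `K`, in
dimension `D`: there are a local algebra `A`, mw pure in all degrees (the cohomology of a regular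
alteration of a closed subset `Y` of dimension `D` of projective space over `E` in a sufficiently small
neighbourhood of `X`), and a homomorphism from the cohomology of `X` to `A` such that the trace of the
image of the power `h ^ D` of the hyperplane class is not zero. -/
def Theory.Special [CharZero Ω] {ι : Type} (X : Set (ι → C)) (D : ℕ) : Prop :=
  ∃ (A : Alg.{u, v} Ω) (s : (T.coh (proj ι X)).Hom A) (t : A.Trace q D), A.Local q ∧
    (∀ i, A.MWPure q i) ∧ t.t (s.s (T.hyp (proj ι X) () ^ D)) ≠ 0

/-- The cohomology is a functor from the closed subsets, defined over `K`, of products of projective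
spaces to the local algebras; a morphism acts only through its values on points. -/
structure Theory.Functorial : Prop where
  isLocal : ∀ {X : PSet C}, X.IsClosed K → (T.coh X).Local q
  map_mem : ∀ {X Y : PSet C} (f : Mor X Y), X.IsClosed K → Y.IsClosed K → ∀ i y,
    (T.coh Y).In i y → (T.coh X).In i (T.pull f y)
  map_F : ∀ {X Y : PSet C} (f : Mor X Y), X.IsClosed K → Y.IsClosed K → ∀ y,
    T.pull f ((T.coh Y).frob y) = (T.coh X).frob (T.pull f y)
  map_N : ∀ {X Y : PSet C} (f : Mor X Y), X.IsClosed K → Y.IsClosed K → ∀ y,
    T.pull f ((T.coh Y).mono y) = (T.coh X).mono (T.pull f y)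
  map_id : ∀ {X : PSet C}, X.IsClosed K → ∀ x, T.pull (Mor.id X) x = x
  map_comp : ∀ {X Y Z : PSet C} (g : Mor Y Z) (f : Mor X Y), X.IsClosed K → Y.IsClosed K →
    Z.IsClosed K → ∀ z, T.pull (g.comp f) z = T.pull f (T.pull g z)
  map_congr : ∀ {X Y : PSet C} (f g : Mor X Y), X.IsClosed K → Y.IsClosed K →
    (∀ x ∈ X.pts, Same (f.app x) (g.app x)) → ∀ y, T.pull f y = T.pull g y

/-- The hyperplane classes are of degree two, `F` multiplies them by `q`, `N` is zero on them, and they
are compatible with the pull-back. -/
structure Theory.Hyperplanes : Prop where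
  hyp_mem : ∀ {X : PSet C}, X.IsClosed K → ∀ j, (T.coh X).In 2 (T.hyp X j)
  F_hyp : ∀ {X : PSet C}, X.IsClosed K → ∀ j,
    (T.coh X).frob (T.hyp X j) = (T.coh X).smul q (T.hyp X j)
  N_hyp : ∀ {X : PSet C}, X.IsClosed K → ∀ j, (T.coh X).mono (T.hyp X j) = (T.coh X).zero
  map_hyp : ∀ {X Y : PSet C} (f : Mor X Y), X.IsClosed K → Y.IsClosed K → ∀ j,
    T.pull f (T.hyp Y j) = T.hyp X (f.a j)

/-- Proper descent: if `f : X → Y` is bijective over the complement of the closed subset `B`, then classes
of `X` and `B` with the same restriction to the inverse image of `B` come from a class of `Y`; this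
class is unique if the restriction from `X` to the inverse image of `B` is surjective. The cohomology
of the empty set is zero. -/
structure Theory.Descent : Prop where
  empty : ∀ {X : PSet C}, X.IsClosed K → X.pts = ∅ → ∀ x, x = (T.coh X).zero
  descent : ∀ {X Y : PSet C} (f : Mor X Y), X.IsClosed K → Y.IsClosed K →
    ∀ (B : Set (∀ j, Y.κ j → C)) (hB : B ⊆ Y.pts), (Y.sub B).IsClosed K → f.BijOff B →
    ∀ i x b, (T.coh X).In i x → (T.coh (Y.sub B)).In i b →
      T.pull (incl X (f.pre B) fun _ h => h.1) x = T.pull (f.restr B) b →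
      ∃ y, (T.coh Y).In i y ∧ T.pull f y = x ∧ T.pull (incl Y B hB) y = b
  descent_unique : ∀ {X Y : PSet C} (f : Mor X Y), X.IsClosed K → Y.IsClosed K →
    ∀ (B : Set (∀ j, Y.κ j → C)) (hB : B ⊆ Y.pts), (Y.sub B).IsClosed K → f.BijOff B →
    Function.Surjective (T.pull (incl X (f.pre B) fun _ h => h.1)) →
    ∀ y, T.pull f y = (T.coh X).zero → T.pull (incl Y B hB) y = (T.coh (Y.sub B)).zero →
      y = (T.coh Y).zero

/-- The cohomology of a family of lines `P → V` is free over the cohomology of `V` with the basis `1`,
`h`, where `h` is the hyperplane class of the projective space containing the lines. -/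
structure Theory.Lines : Prop where
  lines : ∀ {V : PSet C} {μ : Type} {P : Set (∀ j, ext μ V.κ j → C)}, V.IsClosed K →
    (total V μ P).IsClosed K → ∀ (h : IsLineFamily V μ P) (i : ℕ) (x),
    (T.coh (total V μ P)).In (i + 2) x → ∃ a b, (T.coh V).In (i + 2) a ∧ (T.coh V).In i b ∧
      x = (T.coh (total V μ P)).add (T.pull (down h) a)
        ((T.coh (total V μ P)).mul (T.pull (down h) b) (T.hyp (total V μ P) none))
  lines_unique : ∀ {V : PSet C} {μ : Type} {P : Set (∀ j, ext μ V.κ j → C)}, V.IsClosed K →
    (total V μ P).IsClosed K → ∀ (h : IsLineFamily V μ P) (a b),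
    (T.coh (total V μ P)).add (T.pull (down h) a)
        ((T.coh (total V μ P)).mul (T.pull (down h) b) (T.hyp (total V μ P) none)) =
      (T.coh (total V μ P)).zero → a = (T.coh V).zero ∧ b = (T.coh V).zero

/-- The cohomology vanishes above twice the dimension; and the tilting property: if the preimage of
every neighbourhood of `X` under the map `y ↦ y♯` contains a closed set `Y` of dimension `D` over `E`
(`Approximable`), then the cohomology of `X` has a homomorphism to a pure algebra. -/
structure Theory.Tilts {p : ℕ} [Fact p.Prime] {F : Type} [Field F] (𝓣 : Tilting p C F) (E : Type)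
    [Field E] [Algebra E F] [CharZero Ω] : Prop where
  vanish : ∀ (ι : Type) [Finite ι] (X : Set (ι → C)) (d : ℕ), IsConeOver K X →
    DimLEOver K X d → ∀ i x, 2 * d < i → (T.coh (proj ι X)).In i x → x = (T.coh (proj ι X)).zero
  tilting : ∀ (ι : Type) [Finite ι] [Nonempty ι] (X : Set (ι → C)) (D : ℕ), IsConeOver K X →
    DimLEOver K X D → Approximable 𝓣.toTiltPair K E X D → T.Special q X D

/-- The known properties of the `ℓ`-adic cohomology of the closed subsets, defined over the perfectoid
field `K`, of products of projective spaces over `C`. -/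
structure Theory.Ladic {p : ℕ} [Fact p.Prime] {F : Type} [Field F] (𝓣 : Tilting p C F) (E : Type)
    [Field E] [Algebra E F] [CharZero Ω] : Prop extends T.Functorial K q, T.Hyperplanes K q,
      T.Descent K, T.Lines K, T.Tilts K q 𝓣 E

end Pool.Agent.H88.VL
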