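import Pool.Agent.H88.VL.Stm

/-!
# Varieties of lines: bijective morphisms
-/

set_option autoImplicit false

open MvPolynomial Pool.Agent.Y129.TA Pool.Agent.Y129.TB Pool.Agent.Y143 Pool.Agent.X271.TN

universe u v

namespace Pool.Agent.H88.VL

variable {C : Type} [Field C]

lemma Same.refl {J : Type} {κ : J → Type} (x : ∀ j, κ j → C) : Same x x :=
  fun _ => ⟨1, one_ne_zero, (one_smul _ _).symm⟩

lemma Same.symm {J : Type} {κ : J → Type} {x y : ∀ j, κ j → C} (h : Same x y) : Same y x := by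
  intro j
  obtain ⟨c, hc, e⟩ := h j
  refine ⟨c⁻¹, inv_ne_zero hc, ?_⟩
  rw [e, smul_smul, inv_mul_cancel₀ hc, one_smul]

lemma Same.trans {J : Type} {κ : J → Type} {x y z : ∀ j, κ j → C} (h : Same x y)
    (h' : Same y z) : Same x z := by
  intro j
  obtain ⟨c, hc, e⟩ := h j
  obtain ⟨c', hc', e'⟩ := h' j
  exact ⟨c' * c, mul_ne_zero hc' hc, by rw [e', e, smul_smul]⟩

section alg

variable {Ω : Type v} [Field Ω]

/-- additive properties may be checked on homogeneous elements -/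
lemma Alg.IsLocal.induction {A : Alg.{u, v} Ω} {q : ℕ} (hA : A.IsLocal q) {P : A.H → Prop}
    (h0 : P 0) (hadd : ∀ x y, P x → P y → P (x + y)) (hh : ∀ i, ∀ x ∈ A.gr i, P x) (x : A.H) :
    P x := by
  have htop : x ∈ ⨆ i, A.gr i := by
    rw [hA.internal.submodule_iSup_eq_top]
    trivial
  exact Submodule.iSup_induction A.gr (motive := P) htop hh h0 hadd

/-- elements of degree two commute with everything -/
lemma Alg.IsLocal.comm_two {A : Alg.{u, v} Ω} {q : ℕ} (hA : A.IsLocal q) {x : A.H}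
    (hx : x ∈ A.gr 2) (y : A.H) : x * y = y * x := by
  refine hA.induction (P := fun y => x * y = y * x) ?_ ?_ ?_ y
  · rw [mul_zero, zero_mul]
  · intro a b ha hb
    rw [mul_add, add_mul, ha, hb]
  · intro i y hy
    rw [hA.comm hx hy, pow_mul]
    simp

end alg

variable {Ω : Type v} [Field Ω] [CharZero Ω] {p : ℕ} [Fact p.Prime] {F : Type} [Field F]
  {𝓣 : Tilting p C F} {K E : Type} [Field K] [Field E] [Algebra K C] [Algebra E F] {q : ℕ}
  {T : Theory.{u, v} C Ω} (hT : T.IsLadic 𝓣 K E q)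
  (h3b : S_W3b) (h3c : S_W3c)

include hT h3b h3c in
/-- a bijective morphism induces an isomorphism -/
lemma bij {X Y : PSet C} (f : Mor X Y) (hX : X.IsClosed K) (hY : Y.IsClosed K)
    (hf : f.BijOff ∅) : Function.Bijective (T.map f) ∧
      ∀ i y, T.map f y ∈ (T.coh X).gr i → y ∈ (T.coh Y).gr i := by
  have hB : (∅ : Set (∀ j, Y.κ j → C)) ⊆ Y.pts := Set.empty_subset _
  have hBc : (Y.sub ∅).IsClosed K := h3c C K Y hY
  have hpc : (X.sub (f.pre ∅)).IsClosed K := h3b C K X Y f ∅ hX hBc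
  have hpe : (X.sub (f.pre ∅)).pts = ∅ := by
    ext x
    constructor
    · rintro ⟨-, h⟩
      exact h
    · intro h
      exact h.elim
  have ex : ∀ i, ∀ x ∈ (T.coh X).gr i, ∃ y ∈ (T.coh Y).gr i, T.map f y = x := by
    intro i x hx
    obtain ⟨y, hy, h1, -⟩ := hT.descent f hX hY ∅ hB hBc hf i x hx 0 (Submodule.zero_mem _)
      ((hT.empty hpc hpe _).trans (hT.empty hpc hpe _).symm)
    exact ⟨y, hy, h1⟩
  have inj : Function.Injective (T.map f) := by
    rw [injective_iff_map_eq_zero]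
    intro y hy
    refine hT.descent_unique f hX hY ∅ hB hBc hf ?_ y hy (hT.empty hBc rfl _)
    intro x
    exact ⟨0, (hT.empty hpc hpe _).trans (hT.empty hpc hpe _).symm⟩
  refine ⟨⟨inj, ?_⟩, ?_⟩
  · intro x
    refine (hT.isLocal hX).induction (P := fun x => ∃ y, T.map f y = x) ⟨0, map_zero _⟩ ?_ ?_ x
    · rintro x y ⟨a, rfl⟩ ⟨b, rfl⟩
      exact ⟨a + b, map_add _ _ _⟩
    · intro i x hx
      obtain ⟨y, -, hy⟩ := ex i x hx
      exact ⟨y, hy⟩
  · intro i y hy
    obtain ⟨y', hy', h1⟩ := ex i _ hy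
    rwa [← inj h1]

end Pool.Agent.H88.VL
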