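import Pool.Agent.H88.VL.Chase1

/-!
# Varieties of lines: the morphisms
-/

set_option autoImplicit false

open MvPolynomial Pool.Agent.Y129.TA Pool.Agent.Y129.TB Pool.Agent.Y143 Pool.Agent.X271.TN

universe u v

namespace Pool.Agent.H88.VL

variable {C : Type} [Field C] {m : ℕ}

/-- proportional vectors -/
lemma exists_smul_of_wedge {x y : Fin (m + 1) → C} (hx : x ≠ 0) (hy : y ≠ 0)
    (h : wedge x y = 0) : ∃ c : C, c ≠ 0 ∧ y = c • x := by
  obtain ⟨i, hi⟩ := Function.ne_iff.1 hx
  have key : ∀ j, y j = (y i / x i) * x j := by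
    intro j
    have h1 := congrFun h (i, j)
    simp only [wedge, Pi.zero_apply] at h1
    have hi' : x i ≠ 0 := hi
    field_simp
    linear_combination h1
  refine ⟨y i / x i, ?_, funext fun j => by rw [Pi.smul_apply, smul_eq_mul, key j]⟩
  intro h0
  apply hy
  funext j
  rw [key j, h0, zero_mul]
  rfl

lemma wedge_self (x : Fin (m + 1) → C) : wedge x x = 0 := by
  funext t
  simp only [wedge, Pi.zero_apply]
  ring

lemma wedge_smul_right (c : C) (x y : Fin (m + 1) → C) : wedge x (c • y) = c • wedge x y := by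
  funext t
  simp only [wedge, Pi.smul_apply, smul_eq_mul]
  ring

lemma wedge_smul_left (c : C) (x y : Fin (m + 1) → C) : wedge (c • x) y = c • wedge x y := by
  funext t
  simp only [wedge, Pi.smul_apply, smul_eq_mul]
  ring

variable (X : Set (Fin (m + 1) × Fin (m + 1) → C))

/-- `(L, x, y) ↦ (L, y)` -/
def q2 : Mor (QS X) (PS X) where
  a := fun
    | none => none
    | some j => some (some j)
  e := fun
    | none => Equiv.refl _
    | some _ => Equiv.refl _
  maps _ hz := ⟨hz.1.1, hz.2.1, hz.2.2⟩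

variable {K : Type} [Field K] [Algebra K C] {c : ℕ}
  (h : Fin c → MvPolynomial (Crd fun _ : Fin 2 => m) K)

/-- `(L, x, y) ↦ (x, y)` -/
def rho (hm : ∀ z ∈ (QS X).pts, (fun j i => z (rhoA j) (rhoE m j i)) ∈ (ZS (C := C) h).pts) :
    Mor (QS X) (ZS (C := C) h) :=
  ⟨rhoA, rhoE m, hm⟩

variable {X h} (hm : ∀ z ∈ (QS X).pts, (fun j i => z (rhoA j) (rhoE m j i)) ∈ (ZS (C := C) h).pts)

/-- The factors of `(L, x) ↦ (L, x, x)`. -/
def dgA : Option (Option Unit) → Option Unit
  | none => none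
  | some none => none
  | some (some j) => some j

/-- The coordinates of `(L, x) ↦ (L, x, x)`. -/
def dgE (m : ℕ) : ∀ j : Option (Option Unit),
    ext (Fin (m + 1)) (ext (Fin (m + 1)) fun _ : Unit => Fin (m + 1) × Fin (m + 1)) j ≃
      ext (Fin (m + 1)) (fun _ : Unit => Fin (m + 1) × Fin (m + 1)) (dgA j)
  | none => Equiv.refl _
  | some none => Equiv.refl _
  | some (some _) => Equiv.refl _

lemma dg_maps (z : ∀ j, (PS X).κ j → C) (hz : z ∈ (PS X).pts) :
    (fun j i => z (dgA j) (dgE m j i)) ∈ (rho X h hm).pre (diagZ h) := by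
  have hq : (fun j i => z (dgA j) (dgE m j i)) ∈ (QS X).pts :=
    ⟨⟨hz.1, hz.2.1, hz.2.2⟩, hz.2.1, hz.2.2⟩
  exact ⟨hq, (rho X h hm).maps _ hq, wedge_self _⟩

/-- `(L, x) ↦ (L, x, x)` -/
def dg : Mor (PS X) ((QS X).sub ((rho X h hm).pre (diagZ h))) :=
  ⟨dgA, dgE m, dg_maps hm⟩

/-- the diagonal is bijective -/
lemma dg_bij : (dg hm).BijOff ∅ := by
  constructor
  · intro y hy _
    have hq : y ∈ (QS X).pts := hy.1
    have hw : wedge (y (some none)) (y none) = 0 := hy.2.2
    obtain ⟨c, hc, e⟩ := exists_smul_of_wedge (x := y (some none)) (y := y none) hq.1.2.1 hq.2.1 hw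
    refine ⟨fun j => y (some j), hq.1, ?_⟩
    rintro (_ | _ | j)
    · exact ⟨c, hc, e⟩
    · exact ⟨1, one_ne_zero, (one_smul _ _).symm⟩
    · exact ⟨1, one_ne_zero, (one_smul _ _).symm⟩
  · intro x _ x' _ _ hs
    rintro (_ | j)
    · exact hs none
    · exact hs (some (some j))

end Pool.Agent.H88.VL
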