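import Pool.Agent.H88.VL.Chase2

/-!
# Varieties of lines: the map from the cohomology of the lines to the cohomology of the pairs
-/

set_option autoImplicit false

open MvPolynomial Pool.Agent.Y129.TA Pool.Agent.Y129.TB Pool.Agent.Y143 Pool.Agent.X271.TN

universe u v

namespace Pool.Agent.H88.VL

variable {C : Type} [Field C] {m : ℕ}
  {Ω : Type v} [Field Ω] [CharZero Ω] {p : ℕ} [Fact p.Prime] {F : Type} [Field F]
  {𝓣 : Tilting p C F} {K E : Type} [Field K] [Field E] [Algebra K C] [Algebra E F] {q : ℕ}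
  {T : Theory.{u, v} C Ω} {c : ℕ} {X : Set (Fin (m + 1) × Fin (m + 1) → C)}
  {h : Fin c → MvPolynomial (Crd fun _ : Fin 2 => m) K}

/-- the inclusion of the diagonal -/
def inE (hm : ∀ z ∈ (QS X).pts, (fun j i => z (rhoA j) (rhoE m j i)) ∈ (ZS (C := C) h).pts) :
    Mor ((QS X).sub ((rho X h hm).pre (diagZ h))) (QS X) :=
  incl (QS X) ((rho X h hm).pre (diagZ h)) fun _ h => h.1

/-- the inclusion of the diagonal -/
def inB (h : Fin c → MvPolynomial (Crd fun _ : Fin 2 => m) K) :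
    Mor ((ZS (C := C) h).sub (diagZ h)) (ZS (C := C) h) :=
  incl (ZS h) (diagZ h) fun _ h => h.1

/-- the difference of the two hyperplane classes -/
noncomputable def dl (T : Theory.{u, v} C Ω) (X : Set (Fin (m + 1) × Fin (m + 1) → C)) :
    (T.coh (QS X)).H :=
  T.hyp (QS X) (some none) - T.hyp (QS X) none

/-- the closed sets, the families of lines and the bijectivity -/
structure Setup (K : Type) [Field K] [Algebra K C] {c : ℕ}
    (X : Set (Fin (m + 1) × Fin (m + 1) → C))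
    (h : Fin c → MvPolynomial (Crd fun _ : Fin 2 => m) K) : Prop where
  hm : ∀ z ∈ (QS X).pts, (fun j i => z (rhoA j) (rhoE m j i)) ∈ (ZS (C := C) h).pts
  cX : (XS X).IsClosed K
  cP : (PS X).IsClosed K
  cQ : (QS X).IsClosed K
  cZ : (ZS (C := C) h).IsClosed K
  cB : ((ZS (C := C) h).sub (diagZ h)).IsClosed K
  cE : ((QS X).sub ((rho X h hm).pre (diagZ h))).IsClosed K
  L1 : IsLineFamily (XS X) (Fin (m + 1)) (lineSet (XS X) () (Equiv.refl _))
  L2 : IsLineFamily (PS X) (Fin (m + 1)) (lineSet (PS X) (some ()) (Equiv.refl _))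
  bj : (rho X h hm).BijOff (diagZ h)

variable (hT : T.IsLadic 𝓣 K E q) (S : Setup K X h) (h3b : S_W3b) (h3c : S_W3c)

/-- the pull-back from the lines to the triples -/
noncomputable def pull (T : Theory.{u, v} C Ω) (S : Setup K X h) :
    (T.coh (XS X)).H →ₐ[Ω] (T.coh (QS X)).H :=
  (T.map (down S.L2)).comp (T.map (down S.L1))

include hT h3b h3c

lemma dl_zero : T.map (inE S.hm) (dl T X) = 0 := by
  apply (bij hT h3b h3c (dg S.hm) S.cP S.cE (dg_bij S.hm)).1.1
  have e1 : T.map (dg S.hm) (T.map (inE S.hm) (T.hyp (QS X) (some none))) =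
      T.hyp (PS X) none :=
    (congrArg _ (hT.map_hyp (inE S.hm) S.cE S.cQ (some none))).trans
      (hT.map_hyp (dg S.hm) S.cP S.cE (some none))
  have e2 : T.map (dg S.hm) (T.map (inE S.hm) (T.hyp (QS X) none)) = T.hyp (PS X) none :=
    (congrArg _ (hT.map_hyp (inE S.hm) S.cE S.cQ none)).trans
      (hT.map_hyp (dg S.hm) S.cP S.cE none)
  have e3 : T.map (dg S.hm) (T.map (inE S.hm) (dl T X)) =
      T.map (dg S.hm) (T.map (inE S.hm) (T.hyp (QS X) (some none))) -
        T.map (dg S.hm) (T.map (inE S.hm) (T.hyp (QS X) none)) := by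
    unfold dl
    exact (congrArg _ (map_sub (T.map (inE S.hm)) _ _)).trans (map_sub (T.map (dg S.hm)) _ _)
  rw [e3, e1, e2, sub_self]
  exact (map_zero _).symm

lemma inE_surj : Function.Surjective (T.map (inE S.hm)) := by
  intro e
  refine ⟨T.map (down S.L2) (T.map (dg S.hm) e), ?_⟩
  apply (bij hT h3b h3c (dg S.hm) S.cP S.cE (dg_bij S.hm)).1.1
  rw [← hT.map_comp (inE S.hm) (dg S.hm) S.cP S.cE S.cQ,
    ← hT.map_comp (down S.L2) _ S.cP S.cQ S.cP]
  rw [hT.map_congr _ (Mor.id (PS X)) S.cP S.cP ?_, hT.map_id S.cP]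
  intro x _
  rintro (_ | j)
  · exact ⟨1, one_ne_zero, (one_smul _ _).symm⟩
  · exact ⟨1, one_ne_zero, (one_smul _ _).symm⟩

omit h3b h3c in
include S in
lemma dl_mem : dl T X ∈ (T.coh (QS X)).gr 2 :=
  Submodule.sub_mem _ (hT.hyp_mem S.cQ _) (hT.hyp_mem S.cQ _)

omit h3b h3c in
include S in
lemma F_dl : (T.coh (QS X)).F (dl T X) = (q : Ω) • dl T X := by
  unfold dl
  refine (map_sub _ _ _).trans ?_
  refine (congrArg₂ (· - ·) (hT.F_hyp S.cQ _) (hT.F_hyp S.cQ _)).trans ?_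
  exact (smul_sub _ _ _).symm

omit h3b h3c in
include S in
lemma N_dl : (T.coh (QS X)).N (dl T X) = 0 := by
  unfold dl
  refine (map_sub _ _ _).trans ?_
  refine (congrArg₂ (· - ·) (hT.N_hyp S.cQ _) (hT.N_hyp S.cQ _)).trans ?_
  exact sub_zero _

omit h3b h3c in
lemma pull_mem {i : ℕ} {x : (T.coh (XS X)).H} (hx : x ∈ (T.coh (XS X)).gr i) :
    pull T S x ∈ (T.coh (QS X)).gr i :=
  hT.map_mem _ S.cQ S.cP (hT.map_mem _ S.cP S.cX hx)

omit h3b h3c in
lemma pull_F (x : (T.coh (XS X)).H) :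
    pull T S ((T.coh (XS X)).F x) = (T.coh (QS X)).F (pull T S x) := by
  change T.map (down S.L2) (T.map (down S.L1) _) = _
  rw [hT.map_F _ S.cP S.cX, hT.map_F _ S.cQ S.cP]
  rfl

omit h3b h3c in
lemma pull_N (x : (T.coh (XS X)).H) :
    pull T S ((T.coh (XS X)).N x) = (T.coh (QS X)).N (pull T S x) := by
  change T.map (down S.L2) (T.map (down S.L1) _) = _
  rw [hT.map_N _ S.cP S.cX, hT.map_N _ S.cQ S.cP]
  rfl

lemma ex_phi (i : ℕ) (x : (T.coh (XS X)).H) (hx : x ∈ (T.coh (XS X)).gr i) :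
    ∃ z ∈ (T.coh (ZS (C := C) h)).gr (i + 2), T.map (rho X h S.hm) z = pull T S x * dl T X ∧
      T.map (inB h) z = 0 := by
  refine hT.descent (rho X h S.hm) S.cQ S.cZ (diagZ h) (fun _ h => h.1) S.cB S.bj (i + 2)
    (pull T S x * dl T X) ((hT.isLocal S.cQ).mul_mem (pull_mem hT S hx) (dl_mem hT S)) 0
    (Submodule.zero_mem _) ?_
  have h1 := dl_zero hT S h3b h3c
  unfold inE at h1
  rw [map_mul, h1, mul_zero, map_zero]

lemma uniq_phi (z : (T.coh (ZS (C := C) h)).H) (h1 : T.map (rho X h S.hm) z = 0)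
    (h2 : T.map (inB h) z = 0) : z = 0 :=
  hT.descent_unique (rho X h S.hm) S.cQ S.cZ (diagZ h) (fun _ h => h.1) S.cB S.bj
    (inE_surj hT S h3b h3c) z h1 h2

lemma exists_phi : ∃ φ : (T.coh (XS X)).H →ₗ[Ω] (T.coh (ZS (C := C) h)).H,
    (∀ x, T.map (rho X h S.hm) (φ x) = pull T S x * dl T X) ∧ (∀ x, T.map (inB h) (φ x) = 0) ∧
    (∀ i, ∀ x ∈ (T.coh (XS X)).gr i, φ x ∈ (T.coh (ZS (C := C) h)).gr (i + 2)) ∧
    (∀ x, (T.coh (ZS (C := C) h)).F (φ x) = (q : Ω) • φ ((T.coh (XS X)).F x)) ∧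
    ∀ x, (T.coh (ZS (C := C) h)).N (φ x) = φ ((T.coh (XS X)).N x) := by
  have ex : ∀ x : (T.coh (XS X)).H, ∃ z, T.map (rho X h S.hm) z = pull T S x * dl T X ∧
      T.map (inB h) z = 0 := by
    intro x
    refine (hT.isLocal S.cX).induction (P := fun x => ∃ z,
      T.map (rho X h S.hm) z = pull T S x * dl T X ∧ T.map (inB h) z = 0) ?_ ?_ ?_ x
    · exact ⟨0, by rw [map_zero, map_zero, zero_mul], map_zero _⟩
    · rintro x y ⟨a, ha, ha'⟩ ⟨b, hb, hb'⟩
      exact ⟨a + b, by rw [map_add, map_add, ha, hb, add_mul], by rw [map_add, ha', hb', add_zero]⟩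
    · intro i x hx
      obtain ⟨z, -, h1, h2⟩ := ex_phi hT S h3b h3c i x hx
      exact ⟨z, h1, h2⟩
  have uq : ∀ z z' : (T.coh (ZS (C := C) h)).H,
      T.map (rho X h S.hm) z = T.map (rho X h S.hm) z' →
      T.map (inB h) z = T.map (inB h) z' → z = z' := by
    intro z z' h1 h2
    rw [← sub_eq_zero]
    apply uniq_phi hT S h3b h3c
    · rw [map_sub, h1, sub_self]
    · rw [map_sub, h2, sub_self]
  choose φ hφ hφ' using ex
  let Φ : (T.coh (XS X)).H →ₗ[Ω] (T.coh (ZS (C := C) h)).H :=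
    { toFun := φ
      map_add' := fun x y => by
        apply uq
        · rw [hφ, map_add, map_add, hφ, hφ, add_mul]
        · rw [hφ', map_add, hφ', hφ', add_zero]
      map_smul' := fun r x => by
        apply uq
        · rw [hφ, RingHom.id_apply, map_smul, map_smul, hφ, smul_mul_assoc]
        · rw [hφ', RingHom.id_apply, map_smul, hφ', smul_zero] }
  refine ⟨Φ, hφ, hφ', ?_, ?_, ?_⟩
  · intro i x hx
    obtain ⟨z, hz, h1, h2⟩ := ex_phi hT S h3b h3c i x hx
    have : Φ x = z := uq _ _ ((hφ x).trans h1.symm) ((hφ' x).trans h2.symm)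
    rw [this]
    exact hz
  · intro x
    apply uq
    · rw [hT.map_F _ S.cQ S.cZ]
      change (T.coh (QS X)).F (T.map (rho X h S.hm) (φ x)) =
        T.map (rho X h S.hm) ((q : Ω) • φ ((T.coh (XS X)).F x))
      rw [hφ, map_mul, map_smul, hφ, F_dl hT S, pull_F hT S, mul_smul_comm]
    · rw [hT.map_F _ S.cB S.cZ]
      change (T.coh _).F (T.map (inB h) (φ x)) = T.map (inB h) ((q : Ω) • φ ((T.coh (XS X)).F x))
      rw [hφ', map_smul, hφ', smul_zero, map_zero]
  · intro x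
    apply uq
    · rw [hT.map_N _ S.cQ S.cZ]
      change (T.coh (QS X)).N (T.map (rho X h S.hm) (φ x)) =
        T.map (rho X h S.hm) (φ ((T.coh (XS X)).N x))
      rw [hφ, hφ, (hT.isLocal S.cQ).N_mul, N_dl hT S, pull_N hT S, mul_zero, add_zero]
    · rw [hT.map_N _ S.cB S.cZ]
      change (T.coh _).N (T.map (inB h) (φ x)) = T.map (inB h) (φ ((T.coh (XS X)).N x))
      rw [hφ', hφ', map_zero]

end Pool.Agent.H88.VL
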