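import Pool.Agent.H88.VL.Chase3

/-!
# Varieties of lines: the top degree
-/

set_option autoImplicit false

open MvPolynomial Pool.Agent.Y129.TA Pool.Agent.Y129.TB Pool.Agent.Y143 Pool.Agent.X271.TN

universe u v

namespace Pool.Agent.H88.VL

variable {C : Type} [Field C] {m : ℕ}
  {Ω : Type v} [Field Ω] [CharZero Ω] {p : ℕ} [Fact p.Prime] {F : Type} [Field F]
  {𝓣 : Tilting p C F} {K E : Type} [Field K] [Field E] [Algebra K C] [Algebra E F] {q : ℕ}
  {T : Theory.{u, v} C Ω} {c : ℕ} {X : Set (Fin (m + 1) × Fin (m + 1) → C)}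
  {h : Fin c → MvPolynomial (Crd fun _ : Fin 2 => m) K}
  (hT : T.IsLadic 𝓣 K E q) (S : Setup K X h) {d : ℕ} (hP : (T.coh (XS X)).IsPoincare d)

include hT S hP

lemma gr_PS {j : ℕ} (hj : 2 * d + 2 < j) {x : (T.coh (PS X)).H}
    (hx : x ∈ (T.coh (PS X)).gr j) : x = 0 := by
  obtain ⟨i, rfl⟩ : ∃ i, j = i + 2 := ⟨j - 2, by omega⟩
  obtain ⟨a, ha, b, hb, rfl⟩ := hT.lines S.cX S.cP S.L1 i x hx
  rw [hP.above _ (by omega), Submodule.mem_bot] at ha
  rw [hP.above _ (by omega), Submodule.mem_bot] at hb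
  rw [ha, hb, map_zero, zero_mul, add_zero]

lemma gr_PS_top {x : (T.coh (PS X)).H} (hx : x ∈ (T.coh (PS X)).gr (2 * d + 2)) :
    ∃ b ∈ (T.coh (XS X)).gr (2 * d), x = T.map (down S.L1) b * T.hyp (PS X) none := by
  obtain ⟨a, ha, b, hb, rfl⟩ := hT.lines S.cX S.cP S.L1 (2 * d) x hx
  rw [hP.above _ (by omega), Submodule.mem_bot] at ha
  exact ⟨b, hb, by rw [ha, map_zero, zero_add]⟩

omit hT hP in
/-- the classes of top degree of the triples -/
noncomputable def tp (T : Theory.{u, v} C Ω) (S : Setup K X h) (u : (T.coh (XS X)).H) :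
    (T.coh (QS X)).H :=
  T.map (down S.L2) (T.map (down S.L1) u * T.hyp (PS X) none) * T.hyp (QS X) none

lemma gr_QS_top {x : (T.coh (QS X)).H} (hx : x ∈ (T.coh (QS X)).gr (2 * (d + 2))) :
    ∃ b ∈ (T.coh (XS X)).gr (2 * d), x = tp T S b := by
  obtain ⟨a, ha, b, hb, rfl⟩ := hT.lines S.cP S.cQ S.L2 (2 * d + 2) x hx
  have ha0 := gr_PS hT S hP (by omega) ha
  obtain ⟨b', hb', rfl⟩ := gr_PS_top hT S hP hb
  exact ⟨b', hb', by rw [ha0, map_zero, zero_add]; rfl⟩

omit hP in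
lemma tp_inj {u : (T.coh (XS X)).H} (hu : tp T S u = 0) : u = 0 := by
  have h1 := (hT.lines_unique S.cP S.cQ S.L2 0
    (T.map (down S.L1) u * T.hyp (PS X) none) (by
      rw [map_zero, zero_add]
      exact hu)).2
  exact (hT.lines_unique S.cX S.cP S.L1 0 u (by
    rw [map_zero, zero_add]
    exact h1)).2

omit hP in
lemma map_q2 (u : (T.coh (XS X)).H) : T.map (q2 X) (T.map (down S.L1) u) = pull T S u := by
  have e1 := hT.map_comp (down S.L1) (q2 X) S.cQ S.cP S.cX u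
  have e2 := hT.map_comp (down S.L1) (down S.L2) S.cQ S.cP S.cX u
  have e3 := hT.map_congr ((down S.L1).comp (q2 X)) ((down S.L1).comp (down S.L2)) S.cQ S.cX
    (fun x _ => fun j => ⟨1, one_ne_zero, (one_smul _ _).symm⟩) u
  exact (e1.symm.trans e3).trans e2

lemma pull_dl_dl {u : (T.coh (XS X)).H} (hu : u ∈ (T.coh (XS X)).gr (2 * d)) :
    pull T S u * dl T X * dl T X = (-2 : Ω) • tp T S u := by
  set h1 : (T.coh (QS X)).H := T.map (down S.L2) (T.hyp (PS X) none) with hh1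
  set h2 : (T.coh (QS X)).H := T.hyp (QS X) none with hh2
  have e0 : T.hyp (QS X) (some none) = h1 := (hT.map_hyp (down S.L2) S.cQ S.cP none).symm
  have e2 : T.map (q2 X) (T.hyp (PS X) none) = h2 := hT.map_hyp (q2 X) S.cQ S.cP none
  have z0 : T.map (down S.L1) u * T.hyp (PS X) none * T.hyp (PS X) none = 0 := by
    refine gr_PS hT S hP (j := 2 * d + 2 + 2) (by omega) ?_
    exact (hT.isLocal S.cP).mul_mem ((hT.isLocal S.cP).mul_mem (hT.map_mem _ S.cP S.cX hu)
      (hT.hyp_mem S.cP _)) (hT.hyp_mem S.cP _)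
  have z1 : pull T S u * h1 * h1 = 0 := by
    have := congrArg (T.map (down S.L2)) z0
    rw [map_mul, map_mul, map_zero] at this
    exact this
  have z2 : pull T S u * h2 * h2 = 0 := by
    have := congrArg (T.map (q2 X)) z0
    rw [map_mul, map_mul, map_zero, map_q2 hT S, e2] at this
    exact this
  have hcomm : h2 * h1 = h1 * h2 :=
    (hT.isLocal S.cQ).comm_two (hT.hyp_mem S.cQ _) h1
  have htp : tp T S u = pull T S u * h1 * h2 := by
    unfold tp
    rw [map_mul]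
    rfl
  have hdl : dl T X = h1 - h2 := by
    unfold dl
    rw [← hh2]
    exact congrArg (· - h2) e0
  have this : pull T S u * h2 * h1 = pull T S u * h1 * h2 := by
    rw [mul_assoc, hcomm, mul_assoc]
  rw [hdl, htp]
  simp only [mul_sub, sub_mul]
  rw [z1, z2, this, neg_smul, two_smul]
  abel

/-! ### the diagonal -/

omit hT S hP in
lemma pair_eq (z : ∀ _ : Fin 2, Fin (m + 1) → C) :
    (fun t : Crd (fun _ : Fin 2 => m) => z t.1 t.2) = pair (z 0) (z 1) := by
  funext t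
  obtain ⟨j, i⟩ := t
  unfold pair
  by_cases hj : j = 0
  · subst hj
    rfl
  · have : j = 1 := by omega
    subst this
    rfl

omit hT S hP in
lemma diag_maps (x : ∀ j, (proj (Fin (m + 1)) (diagCone (C := C) h)).κ j → C)
    (hx : x ∈ (proj (Fin (m + 1)) (diagCone (C := C) h)).pts) :
    (fun (_ : Fin 2) (i : Fin (m + 1)) => x () i) ∈ diagZ (C := C) h := by
  refine ⟨⟨fun _ => hx.1, fun k => ?_⟩, wedge_self _⟩
  have h1 := hx.2 k
  have h2 := pair_eq (fun (_ : Fin 2) (i : Fin (m + 1)) => x () i)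
  rw [h2]
  exact h1

/-- `x ↦ (x, x)` -/
def dpt (h : Fin c → MvPolynomial (Crd fun _ : Fin 2 => m) K) :
    Mor (proj (Fin (m + 1)) (diagCone (C := C) h)) ((ZS (C := C) h).sub (diagZ h)) :=
  ⟨fun _ => (), fun _ => Equiv.refl _, diag_maps⟩

omit hT hP in
lemma dpt_bij : (dpt (C := C) h).BijOff ∅ := by
  constructor
  · intro y hy _
    obtain ⟨c, hc, e⟩ := exists_smul_of_wedge (x := y (0 : Fin 2)) (y := y (1 : Fin 2))
      (hy.1.1 0) (hy.1.1 1) hy.2
    have hs : Same (κ := fun _ : Fin 2 => Fin (m + 1)) (fun _ : Fin 2 => y (0 : Fin 2)) y := by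
      intro j
      fin_cases j
      · exact ⟨1, one_ne_zero, (one_smul _ _).symm⟩
      · exact ⟨c, hc, e⟩
    refine ⟨fun _ => y (0 : Fin 2), ⟨hy.1.1 0, fun k => ?_⟩, hs⟩
    have h1 := (S.cZ.same y hy.1 (fun _ : Fin 2 => y (0 : Fin 2)) hs.symm).2 k
    rw [pair_eq (fun _ : Fin 2 => y (0 : Fin 2))] at h1
    exact h1
  · intro x _ x' _ _ hs j
    exact hs (0 : Fin 2)

end Pool.Agent.H88.VL
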