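import Pool.Agent.H88.VL.Chase4

/-!
# Varieties of lines: the proof, from the steps
-/

set_option autoImplicit false

open MvPolynomial Pool.Agent.Y129.TA Pool.Agent.Y129.TB Pool.Agent.Y143 Pool.Agent.X271.TN

universe u v

namespace Pool.Agent.H88.VL

variable {C : Type} [Field C] {m : ℕ}
  {Ω : Type v} [Field Ω] [CharZero Ω] {p : ℕ} [Fact p.Prime] {F : Type} [Field F]
  {𝓣 : Tilting p C F} {K E : Type} [Field K] [Field E] [Algebra K C] [Algebra E F] {q : ℕ}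
  {T : Theory.{u, v} C Ω} {c : ℕ} {X : Set (Fin (m + 1) × Fin (m + 1) → C)}
  {h : Fin c → MvPolynomial (Crd fun _ : Fin 2 => m) K}

/-- the cohomology of `ZS h` has a homomorphism to a pure algebra, which is not zero in degree
`2 * D` -/
def Linked (T : Theory.{u, v} C Ω) (q : ℕ)
    (h : Fin c → MvPolynomial (Crd fun _ : Fin 2 => m) K) (D : ℕ) : Prop :=
  ∃ (A : Alg.{u, v} Ω) (ψ : (T.coh (ZS (C := C) h)).H →ₐ[Ω] A.H) (t : A.H →ₗ[Ω] Ω),
    A.IsLocal q ∧ (∀ i, A.MWPure q i) ∧ (∀ i x, x ∈ (T.coh (ZS (C := C) h)).gr i → ψ x ∈ A.gr i) ∧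
    (∀ x, ψ ((T.coh (ZS (C := C) h)).F x) = A.F (ψ x)) ∧
    (∀ x, ψ ((T.coh (ZS (C := C) h)).N x) = A.N (ψ x)) ∧
    (∀ x ∈ A.gr (2 * D), t (A.N x) = 0) ∧
    ∃ z ∈ (T.coh (ZS (C := C) h)).gr (2 * D), t (ψ z) ≠ 0

section link

variable (hT : T.IsLadic 𝓣 K E q) (h3b : S_W3b) (h3c : S_W3c)

include hT h3b h3c

lemma linked_of {ι : Type} {Y : Set (ι → C)} (cG : (GS (C := C) h).IsClosed K)
    (cZ : (ZS (C := C) h).IsClosed K) (cY : (proj ι Y).IsClosed K)
    (f : Mor (GS (C := C) h) (ZS h)) (hf : f.BijOff ∅)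
    (g : Mor (GS (C := C) h) (proj ι Y)) (hg : g.BijOff ∅) {D : ℕ}
    (hS : T.Specializes q Y D) : Linked T q h D := by
  obtain ⟨A, s, t, hA, hMW, hsg, hsF, hsN, -, htN, ht⟩ := hS
  obtain ⟨bf, gf⟩ := bij hT h3b h3c f cG cZ hf
  obtain ⟨bg, gg⟩ := bij hT h3b h3c g cG cY hg
  let β : (T.coh (proj ι Y)).H ≃ₐ[Ω] (T.coh (GS (C := C) h)).H := AlgEquiv.ofBijective (T.map g) bg
  let α : (T.coh (ZS (C := C) h)).H ≃ₐ[Ω] (T.coh (GS (C := C) h)).H :=
    AlgEquiv.ofBijective (T.map f) bf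
  have hβ : ∀ x, T.map g (β.symm x) = x := fun x => β.apply_symm_apply x
  have hα : ∀ x, T.map f (α.symm x) = x := fun x => α.apply_symm_apply x
  refine ⟨A, (s.comp (β.symm : _ →ₐ[Ω] _)).comp (T.map f), t, hA, hMW, ?_, ?_, ?_, htN, ?_⟩
  · intro i x hx
    refine hsg i _ (gg i _ ?_)
    change T.map g (β.symm (T.map f x)) ∈ _
    rw [hβ]
    exact hT.map_mem f cG cZ hx
  · intro x
    change s (β.symm (T.map f _)) = A.F (s (β.symm (T.map f x)))
    rw [← hsF]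
    congr 1
    apply bg.1
    rw [hβ, hT.map_F g cG cY, hβ, hT.map_F f cG cZ]
  · intro x
    change s (β.symm (T.map f _)) = A.N (s (β.symm (T.map f x)))
    rw [← hsN]
    congr 1
    apply bg.1
    rw [hβ, hT.map_N g cG cY, hβ, hT.map_N f cG cZ]
  · have hyp : ∀ D : ℕ, T.hyp (proj ι Y) () ^ D ∈ (T.coh (proj ι Y)).gr (2 * D) := by
      intro D
      induction D with
      | zero =>
        rw [pow_zero]
        exact (hT.isLocal cY).one_mem
      | succ D ih =>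
        rw [pow_succ]
        exact (hT.isLocal cY).mul_mem ih (hT.hyp_mem cY ())
    refine ⟨α.symm (T.map g (T.hyp (proj ι Y) () ^ D)), gf _ _ ?_, ?_⟩
    · rw [hα]
      exact hT.map_mem g cG cY (hyp D)
    · change t (s (β.symm (T.map f (α.symm _)))) ≠ 0
      rw [hα]
      have : β.symm (T.map g (T.hyp (proj ι Y) () ^ D)) = T.hyp (proj ι Y) () ^ D :=
        β.symm_apply_apply _
      rw [this]
      exact ht

end link

section final

variable (hT : T.IsLadic 𝓣 K E q) (S : Setup K X h) {d : ℕ} (hP : (T.coh (XS X)).IsPoincare d)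
  (h3a : S_W3a) (h3b : S_W3b) (h3c : S_W3c) (hcone : IsConeOver K (diagCone (C := C) h))
  (hdim : DimLEOver K (diagCone (C := C) h) (d + 1))

include hT S h3a h3b h3c hcone hdim

lemma gr_B {x : (T.coh ((ZS (C := C) h).sub (diagZ h))).H}
    (hx : x ∈ (T.coh ((ZS (C := C) h).sub (diagZ h))).gr (2 * (d + 2))) : x = 0 := by
  have cD : (proj (Fin (m + 1)) (diagCone (C := C) h)).IsClosed K := h3a C K _ _ hcone
  apply (bij hT h3b h3c (dpt (C := C) h) cD S.cB (dpt_bij S)).1.1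
  have h1 := hT.map_mem (dpt (C := C) h) cD S.cB hx
  rw [hT.vanish (Fin (m + 1)) (diagCone h) (d + 1) hcone hdim _ (by omega),
    Submodule.mem_bot] at h1
  rw [h1, map_zero]

lemma rho_inj {z : (T.coh (ZS (C := C) h)).H} (hz : z ∈ (T.coh (ZS (C := C) h)).gr (2 * (d + 2)))
    (h0 : T.map (rho X h S.hm) z = 0) : z = 0 :=
  uniq_phi hT S h3b h3c z h0
    (gr_B hT S h3a h3b h3c hcone hdim (hT.map_mem (inB h) S.cB S.cZ hz))

include hP

lemma one_dim {z z₀ : (T.coh (ZS (C := C) h)).H}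
    (hz : z ∈ (T.coh (ZS (C := C) h)).gr (2 * (d + 2)))
    (hz₀ : z₀ ∈ (T.coh (ZS (C := C) h)).gr (2 * (d + 2))) (hne : z ≠ 0) : ∃ r : Ω, z₀ = r • z := by
  obtain ⟨u, hu, e⟩ := gr_QS_top hT S hP (hT.map_mem (rho X h S.hm) S.cQ S.cZ hz)
  obtain ⟨u₀, hu₀, e₀⟩ := gr_QS_top hT S hP (hT.map_mem (rho X h S.hm) S.cQ S.cZ hz₀)
  obtain ⟨ω, -, -, hω⟩ := hP.top
  obtain ⟨a, rfl⟩ := hω u hu
  obtain ⟨b, rfl⟩ := hω u₀ hu₀
  have ha : a ≠ 0 := by
    rintro rfl
    apply hne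
    apply rho_inj hT S h3a h3b h3c hcone hdim hz
    rw [e, zero_smul]
    unfold tp
    rw [map_zero, zero_mul, map_zero, zero_mul]
  have htp : ∀ r : Ω, tp T S (r • ω) = r • tp T S ω := by
    intro r
    unfold tp
    rw [map_smul, smul_mul_assoc, map_smul, smul_mul_assoc]
  refine ⟨b / a, ?_⟩
  rw [← sub_eq_zero]
  apply rho_inj hT S h3a h3b h3c hcone hdim
  · exact Submodule.sub_mem _ hz₀ (Submodule.smul_mem _ _ hz)
  · rw [map_sub, map_smul, e, e₀, htp, htp, smul_smul, div_mul_cancel₀ _ ha, sub_self]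

theorem pure_of_linked (hq : 1 < q) (h1 : S_W1.{u, v}) (hL : Linked T q h (d + 2)) (i : ℕ)
    (hi : i ≤ 2 * d) : (T.coh (XS X)).MWPure q i := by
  obtain ⟨A, ψ, t, hA, hMW, hψ, hF, hN, htN, z₀, hz₀, ht₀⟩ := hL
  obtain ⟨φ, p1, p2, p3, p4, p5⟩ := exists_phi hT S h3b h3c
  have lX := hT.isLocal S.cX
  have lQ := hT.isLocal S.cQ
  have lZ := hT.isLocal S.cZ
  -- the trace does not vanish in the top degree
  have ht : ∀ z ∈ (T.coh (ZS (C := C) h)).gr (2 * (d + 2)), z ≠ 0 → t (ψ z) ≠ 0 := by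
    intro z hz hne h0
    obtain ⟨r, rfl⟩ := one_dim hT S hP h3a h3b h3c hcone hdim hz hz₀ hne
    apply ht₀
    rw [map_smul, map_smul, h0, smul_zero]
  -- multiplication by `dl` commutes
  have hc : ∀ x, dl T X * x = x * dl T X := lQ.comm_two (dl_mem hT S)
  have hmul : ∀ x y, T.map (rho X h S.hm) (φ x * φ y) = pull T S (x * y) * dl T X * dl T X := by
    intro x y
    rw [map_mul, p1, p1, map_mul, mul_assoc (pull T S x), ← mul_assoc (dl T X), hc,
      mul_assoc (pull T S y), ← mul_assoc (pull T S x), ← mul_assoc (pull T S x * pull T S y)]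
  -- the functional on the classes of top degree
  let τ : (T.coh (XS X)).H →ₗ[Ω] Ω :=
    t ∘ₗ ψ.toLinearMap ∘ₗ (LinearMap.mulLeft Ω (φ 1)) ∘ₗ φ
  have hτ : ∀ u, τ u = t (ψ (φ 1 * φ u)) := fun _ => rfl
  have deg : ∀ {i j : ℕ} {x y : (T.coh (XS X)).H}, x ∈ (T.coh (XS X)).gr i →
      y ∈ (T.coh (XS X)).gr j → i + j = 2 * d →
        φ x * φ y ∈ (T.coh (ZS (C := C) h)).gr (2 * (d + 2)) := by
    intro i j x y hx hy hij
    have := lZ.mul_mem (p3 i x hx) (p3 j y hy)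
    rwa [show i + 2 + (j + 2) = 2 * (d + 2) by omega] at this
  refine h1 Ω q d i (T.coh (XS X)) A (ψ.toLinearMap ∘ₗ φ) t τ hq lX hA hP hi ?_ ?_ ?_ htN ?_ ?_
    (hMW (i + 2))
  · intro j x hx
    exact hψ _ _ (p3 j x hx)
  · intro x
    change A.F (ψ (φ x)) = (q : Ω) • ψ (φ _)
    rw [← hF, p4, map_smul]
  · intro x
    change A.N (ψ (φ x)) = ψ (φ _)
    rw [← hN, p5]
  · intro x hx hne
    rw [hτ]
    refine ht _ (deg lX.one_mem hx (by omega)) fun h0 => hne ?_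
    have h2 := hmul 1 x
    rw [h0, map_zero, one_mul, pull_dl_dl hT S hP hx] at h2
    have h3 : tp T S x = 0 := by
      have := congrArg (fun y => (-2 : Ω)⁻¹ • y) h2
      simp only [smul_zero, smul_smul] at this
      rw [inv_mul_cancel₀ (by norm_num), one_smul] at this
      exact this.symm
    exact tp_inj hT S h3
  · intro x hx y hy
    change t (ψ (φ x) * ψ (φ y)) = τ (x * y)
    rw [← map_mul, hτ]
    have h2 : φ x * φ y = φ 1 * φ (x * y) := by
      rw [← sub_eq_zero]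
      apply rho_inj hT S h3a h3b h3c hcone hdim
      · refine Submodule.sub_mem _ (deg hx hy (by omega)) (deg lX.one_mem (lX.mul_mem hx hy)
          (by omega))
      · rw [map_sub, hmul, hmul, one_mul, sub_self]
    rw [h2]

end final

end Pool.Agent.H88.VL
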