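import Pool.Agent.H88.VL.Defs

/-!
# Varieties of lines: definitions
-/

set_option autoImplicit false

open MvPolynomial Pool.Agent.Y129.TA Pool.Agent.Y129.TB Pool.Agent.Y143 Pool.Agent.X271.TN

universe u v

namespace Pool.Agent.H88.VL

variable {C : Type} [Field C] {m : ℕ}

/-- The Pluecker coordinates of the line through the points `x` and `y` of `ℙ^m`. -/
def wedge (x y : Fin (m + 1) → C) : Fin (m + 1) × Fin (m + 1) → C :=
  fun t => x t.1 * y t.2 - x t.2 * y t.1

/-- The pair of the points `x` and `y` of `ℙ^m`. -/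
def pair (x y : Fin (m + 1) → C) : Crd (fun _ : Fin 2 => m) → C :=
  fun t => if t.1 = 0 then x t.2 else y t.2

/-- The number of the homogeneous coordinates of the Segre embedding of `ℙ^m × ℙ^m`, minus one. -/
def segN (m : ℕ) : ℕ := m * m + 2 * m

theorem segN_succ (m : ℕ) : segN m + 1 = (m + 1) * (m + 1) := by
  unfold segN
  ring

/-- The numbering of the coordinates of the Segre embedding. -/
def segE (m : ℕ) : Fin (segN m + 1) ≃ Fin (m + 1) × Fin (m + 1) :=
  (finCongr (segN_succ m)).trans finProdFinEquiv.symm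

/-- The Segre embedding of `ℙ^m × ℙ^m`, given by the products `x_i y_j`. -/
noncomputable def segre (K : Type) [Field K] (m : ℕ) :
    Fin (segN m + 1) → MvPolynomial (Crd fun _ : Fin 2 => m) K :=
  fun k => X ⟨0, (segE m k).1⟩ * X ⟨1, (segE m k).2⟩

/-- `X`, a cone of Pluecker coordinates, is a closed set of lines in `ℙ^m`, defined over `K`, which is
cut out by the bihomogeneous equations `h j` of bidegrees `a j`: the line through two different points
`x` and `y` belongs to `X` if and only if `h j (x, y) = 0` for all `j`. -/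
structure IsCutOut (K : Type) [Field K] [Algebra K C] {c : ℕ}
    (X : Set (Fin (m + 1) × Fin (m + 1) → C)) (h : Fin c → MvPolynomial (Crd fun _ : Fin 2 => m) K)
    (a : Fin c → Fin 2 → ℕ) : Prop where
  cone : IsConeOver K X
  lines : ∀ p ∈ X, ∃ x y, p = wedge x y
  hom : ∀ j, MultiHom (h j) (a j)
  cut : ∀ x y, wedge x y ≠ 0 → (wedge x y ∈ X ↔ ∀ j, aeval (pair x y) (h j) = 0)

/-! ### The sets of the points of the lines -/

/-- The pairs consisting of a point of `V` and of a point of the line whose Pluecker coordinates are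
the coordinates `j₀` of the first point. -/
def lineSet (V : PSet C) (j₀ : V.J) (e₀ : Fin (m + 1) × Fin (m + 1) ≃ V.κ j₀) :
    Set (∀ j, ext (Fin (m + 1)) V.κ j → C) :=
  {z | (fun j => z (some j)) ∈ V.pts ∧ z none ≠ 0 ∧ ∀ i j k : Fin (m + 1),
    z none i * z (some j₀) (e₀ (j, k)) - z none j * z (some j₀) (e₀ (i, k)) +
      z none k * z (some j₀) (e₀ (i, j)) = 0}

/-- The lines. -/
abbrev XS (X : Set (Fin (m + 1) × Fin (m + 1) → C)) : PSet C := proj (Fin (m + 1) × Fin (m + 1)) X

/-- The pairs of a line and a point of the line. -/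
abbrev PS (X : Set (Fin (m + 1) × Fin (m + 1) → C)) : PSet C :=
  total (XS X) (Fin (m + 1)) (lineSet (XS X) () (Equiv.refl _))

/-- The triples of a line and two points of the line. -/
abbrev QS (X : Set (Fin (m + 1) × Fin (m + 1) → C)) : PSet C :=
  total (PS X) (Fin (m + 1)) (lineSet (PS X) (some ()) (Equiv.refl _))

variable {K : Type} [Field K] [Algebra K C] {c : ℕ}

/-- The pairs `z` of points of `ℙ^m` such that `h k (z) = 0` for all `k`. -/
def ZS (h : Fin c → MvPolynomial (Crd fun _ : Fin 2 => m) K) : PSet C where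
  J := Fin 2
  κ _ := Fin (m + 1)
  pts := {z | (∀ j, z j ≠ 0) ∧
    ∀ k, aeval (fun t : Crd (fun _ : Fin 2 => m) => z t.1 t.2) (h k) = 0}

/-- The pairs of equal points in `ZS h`. -/
def diagZ (h : Fin c → MvPolynomial (Crd fun _ : Fin 2 => m) K) :
    Set (∀ _ : Fin 2, Fin (m + 1) → C) :=
  {z | z ∈ (ZS (C := C) h).pts ∧ wedge (z 0) (z 1) = 0}

/-- The cone of the points `x` with `h k (x, x) = 0` for all `k`. -/
def diagCone (h : Fin c → MvPolynomial (Crd fun _ : Fin 2 => m) K) : Set (Fin (m + 1) → C) :=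
  {x | ∀ k, aeval (pair x x) (h k) = 0}

/-- The triples `(s, x, y)` where `(x, y)` is in `ZS h` and `s` is proportional to the Segre
coordinates `x_i y_j` of `(x, y)`. -/
def graphSet (h : Fin c → MvPolynomial (Crd fun _ : Fin 2 => m) K) :
    Set (∀ j : Option (Fin 2), ext (Fin (segN m + 1)) (fun _ => Fin (m + 1)) j → C) :=
  {z | (fun j => z (some j)) ∈ (ZS (C := C) h).pts ∧ z none ≠ 0 ∧
    ∀ k l, z none k * (z (some 0) (segE m l).1 * z (some 1) (segE m l).2) =
      z none l * (z (some 0) (segE m k).1 * z (some 1) (segE m k).2)}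

/-- The graph of the Segre embedding of `ZS h`. -/
def GS (h : Fin c → MvPolynomial (Crd fun _ : Fin 2 => m) K) : PSet C :=
  total (ZS h) (Fin (segN m + 1)) (graphSet h)

end Pool.Agent.H88.VL
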