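import Pool.Agent.H88.VL.Stm

/-! VL-W2 (helper63): Pluecker coordinates of a line -/

set_option autoImplicit false

namespace Pool.Agent.H88.VL.W2

open Pool.Agent.H88.VL

theorem main_a : S_W2a := by
  intro C _ m x y
  rw [LinearIndependent.pair_iff]
  constructor
  · intro h s t hst
    obtain ⟨⟨i, j⟩, hij⟩ := Function.ne_iff.1 h
    have hD : x i * y j - x j * y i ≠ 0 := hij
    have h1 : s * x i + t * y i = 0 := congrFun hst i
    have h2 : s * x j + t * y j = 0 := congrFun hst j
    constructor
    · have : s * (x i * y j - x j * y i) = 0 := by linear_combination y j * h1 - y i * h2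
      exact (mul_eq_zero.1 this).resolve_right hD
    · have : t * (x i * y j - x j * y i) = 0 := by linear_combination x i * h2 - x j * h1
      exact (mul_eq_zero.1 this).resolve_right hD
  · intro h h0
    have hw : ∀ i j, x i * y j - x j * y i = 0 := fun i j => congrFun h0 (i, j)
    by_cases hy : y = 0
    · have := (h 0 1 (by rw [hy, smul_zero, zero_smul, add_zero])).2
      exact one_ne_zero this
    · obtain ⟨j, hj⟩ := Function.ne_iff.1 hy
      have := (h (y j) (-x j) (by
        funext i
        simp only [Pi.add_apply, Pi.smul_apply, smul_eq_mul, Pi.zero_apply]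
        linear_combination hw i j)).1
      exact hj this

theorem main_b : S_W2b := by
  intro C _ m u w x huw
  have hne := (main_a C m u w).2 huw
  constructor
  · intro h
    obtain ⟨⟨j, k⟩, hjk⟩ := Function.ne_iff.1 hne
    have hD : u j * w k - u k * w j ≠ 0 := hjk
    refine ⟨(x j * w k - x k * w j) / (u j * w k - u k * w j),
      (x k * u j - x j * u k) / (u j * w k - u k * w j), ?_⟩
    funext i
    have h1 := h i j k
    unfold wedge at h1
    simp only at h1
    simp only [Pi.add_apply, Pi.smul_apply, smul_eq_mul]
    rw [div_mul_eq_mul_div, div_mul_eq_mul_div, ← add_div, eq_div_iff hD]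
    linear_combination h1
  · rintro ⟨s, t, rfl⟩ i j k
    unfold wedge
    simp only [Pi.add_apply, Pi.smul_apply, smul_eq_mul]
    ring

theorem main_c : S_W2c := by
  intro C _ m u w s t s' t'
  funext ij
  unfold wedge
  simp only [Pi.add_apply, Pi.smul_apply, smul_eq_mul]
  ring

end Pool.Agent.H88.VL.W2
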