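import Pool.Agent.H88.VL.Stm

/-! VL-W3 (helper63): closed sets -/

set_option autoImplicit false

open MvPolynomial Pool.Agent.Y129.TA Pool.Agent.Y129.TB Pool.Agent.Y143 Pool.Agent.X271.TN

namespace Pool.Agent.H88.VL.W3

open Pool.Agent.H88.VL

theorem aeval_ren {C K σ τ : Type} [Field C] [Field K] [Algebra K C] (g : σ → τ) (x : τ → C)
    (y : σ → C) (h : ∀ i, y i = x (g i)) (P : MvPolynomial σ K) :
    aeval x (rename g P) = aeval y P := by
  rw [aeval_rename]
  congr 2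
  funext i
  exact (h i).symm

theorem main_a : S_W3a := by
  intro C K _ _ _ ι _ X hX
  obtain ⟨⟨J, hJ⟩, hc⟩ := hX
  refine ⟨inferInstanceAs (Finite Unit), fun _ => inferInstanceAs (Finite ι), ?_, ?_, ?_⟩
  · rintro x hx ⟨⟩
    exact hx.1
  · intro x hx y hxy
    obtain ⟨c, hc0, hyc⟩ := hxy ()
    constructor
    · show y () ≠ 0
      rw [hyc]
      exact smul_ne_zero hc0 hx.1
    · show y () ∈ X
      rw [hyc]
      exact hc c _ hx.2
  · refine ⟨(fun P : MvPolynomial ι K => rename (fun i : ι => (⟨(), i⟩ : (_ : Unit) × ι)) P) '' J, ?_⟩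
    intro x hx
    have h0 : x () ≠ 0 := hx ()
    constructor
    · rintro ⟨_, h⟩ P ⟨Q, hQ, rfl⟩
      rw [hJ] at h
      exact (aeval_ren (fun i : ι => (⟨(), i⟩ : (_ : Unit) × ι)) (fun t => x t.1 t.2) (x ())
        (fun _ => rfl) Q).trans (h Q hQ)
    · intro h
      refine ⟨h0, ?_⟩
      rw [hJ]
      intro Q hQ
      exact (aeval_ren (fun i : ι => (⟨(), i⟩ : (_ : Unit) × ι)) (fun t => x t.1 t.2) (x ())
        (fun _ => rfl) Q).symm.trans (h _ ⟨Q, hQ, rfl⟩)

theorem main_b : S_W3b := by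
  intro C K _ _ _ X Y f B hX hB
  refine ⟨hX.finJ, hX.finκ, fun x hx => hX.ne_zero x hx.1, ?_, ?_⟩
  · intro x hx y hxy
    refine ⟨hX.same x hx.1 y hxy, hB.same (f.app x) hx.2 (f.app y) fun j => ?_⟩
    obtain ⟨c, hc0, hyc⟩ := hxy (f.a j)
    refine ⟨c, hc0, ?_⟩
    funext i
    exact congrFun hyc (f.e j i)
  · obtain ⟨S, hS⟩ := hX.eqs
    obtain ⟨T, hT⟩ := hB.eqs
    refine ⟨S ∪ (fun P : MvPolynomial ((j : Y.J) × Y.κ j) K =>
      rename (fun t => (⟨f.a t.1, f.e t.1 t.2⟩ : (j : X.J) × X.κ j)) P) '' T, ?_⟩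
    intro x hx
    have hx' : ∀ j, f.app x j ≠ 0 := by
      intro j h0
      apply hx (f.a j)
      funext i
      have h1 : x (f.a j) (f.e j ((f.e j).symm i)) = 0 := congrFun h0 ((f.e j).symm i)
      have h2 : f.e j ((f.e j).symm i) = i := (f.e j).apply_symm_apply i
      exact (congrArg (x (f.a j)) h2).symm.trans h1
    have h1 := hS x hx
    have h2 := hT (f.app x) hx'
    constructor
    · rintro ⟨h3, h4⟩ P (hP | ⟨Q, hQ, rfl⟩)
      · exact h1.1 h3 P hP
      · exact (aeval_ren (fun t : (j : Y.J) × Y.κ j => (⟨f.a t.1, f.e t.1 t.2⟩ : (j : X.J) × X.κ j))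
          (fun t => x t.1 t.2) (fun t => f.app x t.1 t.2) (fun _ => rfl) Q).trans (h2.1 h4 Q hQ)
    · intro h
      refine ⟨h1.2 fun P hP => h P (Or.inl hP), h2.2 fun Q hQ => ?_⟩
      exact (aeval_ren (fun t : (j : Y.J) × Y.κ j => (⟨f.a t.1, f.e t.1 t.2⟩ : (j : X.J) × X.κ j))
          (fun t => x t.1 t.2) (fun t => f.app x t.1 t.2) (fun _ => rfl) Q).symm.trans
          (h _ (Or.inr ⟨Q, hQ, rfl⟩))

theorem main_c : S_W3c := by
  intro C K _ _ _ X hX
  refine ⟨hX.finJ, hX.finκ, fun x hx => absurd hx (Set.notMem_empty x),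
    fun x hx => absurd hx (Set.notMem_empty x), {1}, ?_⟩
  intro x _
  constructor
  · intro h
    exact absurd h (Set.notMem_empty x)
  · intro h
    have := h 1 rfl
    rw [map_one] at this
    exact absurd this one_ne_zero

end Pool.Agent.H88.VL.W3
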