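import Pool.Agent.H88.VL.Stm

/-!
# W4: the incidence variety is closed and a family of lines
-/

set_option autoImplicit false

open MvPolynomial Pool.Agent.Y129.TA Pool.Agent.Y129.TB Pool.Agent.Y143 Pool.Agent.X271.TN

namespace Pool.Agent.H88.VL.W4

variable {C K : Type} [Field C] [Field K] [Algebra K C]

theorem aev {σ : Type} (f : σ → C) (a b c d e g : σ) :
    aeval f (X a * X b - X c * X d + X e * X g : MvPolynomial σ K) = f a * f b - f c * f d + f e * f g := by
  simp

/-- the equations of the incidence -/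
noncomputable def eqn {m : ℕ} (V : PSet C) (j₀ : V.J) (e₀ : Fin (m + 1) × Fin (m + 1) ≃ V.κ j₀)
    (i j k : Fin (m + 1)) : MvPolynomial ((j : Option V.J) × ext (Fin (m + 1)) V.κ j) K :=
  X ⟨none, i⟩ * X ⟨some j₀, e₀ (j, k)⟩ - X ⟨none, j⟩ * X ⟨some j₀, e₀ (i, k)⟩ +
    X ⟨none, k⟩ * X ⟨some j₀, e₀ (i, j)⟩

theorem aeval_eqn {m : ℕ} (V : PSet C) (j₀ : V.J) (e₀ : Fin (m + 1) × Fin (m + 1) ≃ V.κ j₀)
    (i j k : Fin (m + 1)) (z : ∀ j, ext (Fin (m + 1)) V.κ j → C) :
    aeval (fun t : (j : Option V.J) × ext (Fin (m + 1)) V.κ j => z t.1 t.2) (eqn (K := K) V j₀ e₀ i j k) =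
      z none i * z (some j₀) (e₀ (j, k)) - z none j * z (some j₀) (e₀ (i, k)) +
        z none k * z (some j₀) (e₀ (i, j)) :=
  aev (K := K) (fun t : (j : Option V.J) × ext (Fin (m + 1)) V.κ j => z t.1 t.2) _ _ _ _ _ _

/-- the inclusion of the coordinates of the base -/
def up {m : ℕ} (V : PSet C) (t : (j : V.J) × V.κ j) : (j : Option V.J) × ext (Fin (m + 1)) V.κ j :=
  ⟨some t.1, t.2⟩

theorem main (h2a : S_W2a) (h2b : S_W2b) : S_W4 := by
  intro C K _ _ _ m V j₀ e₀ hV hL
  refine ⟨⟨?_, ?_, ?_, ?_, ?_⟩, ⟨fun z hz => hz.1, ?_⟩⟩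
  · have := hV.finJ
    show Finite (Option V.J)
    infer_instance
  · intro j
    match j with
    | none => show Finite (Fin (m + 1)); infer_instance
    | some j => exact hV.finκ j
  · intro z hz j
    match j with
    | none => exact hz.2.1
    | some j => exact hV.ne_zero _ hz.1 j
  · intro z hz z' hzz
    refine ⟨hV.same _ hz.1 _ fun j => hzz (some j), ?_, ?_⟩
    · obtain ⟨c, hc, h⟩ := hzz none
      rw [h]
      exact smul_ne_zero hc hz.2.1
    · intro i j k
      obtain ⟨c, hc, h⟩ := hzz none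
      obtain ⟨c', hc', h'⟩ := hzz (some j₀)
      have a1 : ∀ i : Fin (m + 1), z' none i = c * z none i := fun i => congrFun h i
      have a2 : ∀ t : V.κ j₀, z' (some j₀) t = c' * z (some j₀) t := fun t => congrFun h' t
      have e := hz.2.2 i j k
      rw [a1, a1, a1, a2, a2, a2]
      linear_combination c * c' * e
  · obtain ⟨S, hS⟩ := hV.eqs
    refine ⟨(rename (up V)) '' S ∪ {P | ∃ i j k, P = eqn V j₀ e₀ i j k}, fun z hz => ?_⟩
    have hb := hS (fun j => z (some j)) fun j => hz (some j)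
    have hr : ∀ P : MvPolynomial ((j : V.J) × V.κ j) K,
        aeval (fun t : (j : Option V.J) × ext (Fin (m + 1)) V.κ j => z t.1 t.2) (rename (up V) P) =
        aeval (fun t : (j : V.J) × V.κ j => z (some t.1) t.2) P := by
      intro P
      rw [aeval_rename]
      rfl
    constructor
    · rintro ⟨h1, -, h3⟩ P hP
      rcases hP with ⟨Q, hQ, rfl⟩ | ⟨i, j, k, rfl⟩
      · exact (hr Q).trans (hb.1 h1 Q hQ)
      · exact (aeval_eqn V j₀ e₀ i j k z).trans (h3 i j k)
    · intro h
      refine ⟨hb.2 fun P hP => ?_, hz none, fun i j k => ?_⟩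
      · exact (hr P).symm.trans (h _ (Or.inl ⟨P, hP, rfl⟩))
      · exact (aeval_eqn V j₀ e₀ i j k z).symm.trans (h _ (Or.inr ⟨i, j, k, rfl⟩))
  · intro x hx
    obtain ⟨u, w, huw⟩ := hL x hx
    have hne : wedge u w ≠ 0 := by
      intro h0
      apply hV.ne_zero x hx j₀
      funext t
      have := congrFun huw (e₀.symm t)
      rw [h0] at this
      simpa using this
    have hli := (h2a C m u w).1 hne
    refine ⟨u, w, hli, fun y => ?_⟩
    have key := h2b C m u w y hli
    have hw : ∀ t, x j₀ (e₀ t) = wedge u w t := fun t => congrFun huw t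
    constructor
    · rintro ⟨-, h2, h3⟩
      refine ⟨h2, key.1 fun i j k => ?_⟩
      rw [← hw, ← hw, ← hw]
      exact h3 i j k
    · rintro ⟨h1, h2⟩
      refine ⟨hx, h1, fun i j k => ?_⟩
      have := key.2 h2 i j k
      rw [← hw, ← hw, ← hw] at this
      exact this

end Pool.Agent.H88.VL.W4
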