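import Pool.Agent.H88.VL.Stm

/-! # VL-W5: closed sets given by bihomogeneous equations (helper95) -/

set_option autoImplicit false

open MvPolynomial Pool.Agent.Y129.TA Pool.Agent.Y129.TB Pool.Agent.Y143 Pool.Agent.X271.TN

namespace Pool.Agent.H88.VL.W5

/-- scaling the factors of a multihomogeneous polynomial -/
theorem aeval_scale {K C : Type} [Field K] [Field C] [Algebra K C] {m : ℕ}
    {P : MvPolynomial (Crd fun _ : Fin 2 => m) K} {d : Fin 2 → ℕ} (hP : MultiHom P d) (c : Fin 2 → C)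
    (z : Crd (fun _ : Fin 2 => m) → C) :
    aeval (fun t => c t.1 * z t) P = (∏ κ, c κ ^ d κ) * aeval z P := by
  rw [aeval_def, aeval_def, eval₂_eq', eval₂_eq', Finset.mul_sum]
  refine Finset.sum_congr rfl fun α hα => ?_
  have h1 : ∏ t : Crd (fun _ : Fin 2 => m), (c t.1 * z t) ^ α t =
      (∏ κ, c κ ^ d κ) * ∏ t : Crd (fun _ : Fin 2 => m), z t ^ α t := by
    simp_rw [mul_pow]
    rw [Finset.prod_mul_distrib]
    congr 1
    rw [Fintype.prod_sigma]
    refine Finset.prod_congr rfl fun κ _ => ?_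
    rw [← hP α hα κ, ← Finset.prod_pow_eq_pow_sum]
  rw [h1]
  ring

theorem same_smul {C : Type} [Field C] {m : ℕ} {x y : ∀ _ : Fin 2, Fin (m + 1) → C}
    (h : Same x y) : ∃ c : Fin 2 → C, (∀ j, c j ≠ 0) ∧ y = fun j => c j • x j := by
  choose c hc0 hc using h
  exact ⟨c, hc0, funext hc⟩

theorem pts_smul {C K : Type} [Field C] [Field K] [Algebra K C] {m c : ℕ}
    {h : Fin c → MvPolynomial (Crd fun _ : Fin 2 => m) K} {a : Fin c → Fin 2 → ℕ}
    (hh : ∀ j, MultiHom (h j) (a j)) {x : ∀ _ : Fin 2, Fin (m + 1) → C}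
    (hx : x ∈ (ZS (C := C) h).pts) {e : Fin 2 → C} (he : ∀ j, e j ≠ 0) :
    (fun j => e j • x j) ∈ (ZS (C := C) h).pts := by
  refine ⟨fun j => smul_ne_zero (he j) (hx.1 j), fun k => ?_⟩
  have h1 := aeval_scale (hh k) e (fun t : Crd (fun _ : Fin 2 => m) => x t.1 t.2)
  have h2 := hx.2 k
  rw [h2, mul_zero] at h1
  exact h1

theorem main_a : S_W5a := by
  intro C K _ _ _ m c h a hh
  refine ⟨inferInstanceAs (Finite (Fin 2)), fun _ => inferInstanceAs (Finite (Fin (m + 1))),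
    fun x hx j => hx.1 j, ?_, ⟨Set.range h, ?_⟩⟩
  · intro x hx y hxy
    obtain ⟨e, he, rfl⟩ := same_smul hxy
    exact pts_smul hh hx he
  · intro x hx
    constructor
    · rintro hx1 P ⟨k, rfl⟩
      exact hx1.2 k
    · intro hx1
      exact ⟨hx, fun k => hx1 (h k) ⟨k, rfl⟩⟩

theorem wedge_smul {C : Type} [Field C] {m : ℕ} (a b : C) (x y : Fin (m + 1) → C) :
    wedge (a • x) (b • y) = (a * b) • wedge x y := by
  funext t
  simp only [wedge, Pi.smul_apply, smul_eq_mul]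
  ring

/-- the equation of the diagonal -/
noncomputable def dq (K : Type) [Field K] (m : ℕ) (t : Fin (m + 1) × Fin (m + 1)) :
    MvPolynomial (Crd fun _ : Fin 2 => m) K :=
  X ⟨0, t.1⟩ * X ⟨1, t.2⟩ - X ⟨0, t.2⟩ * X ⟨1, t.1⟩

theorem aeval_dq {C K : Type} [Field C] [Field K] [Algebra K C] {m : ℕ}
    (x : Fin 2 → Fin (m + 1) → C) (t : Fin (m + 1) × Fin (m + 1)) :
    aeval (fun t : Crd (fun _ : Fin 2 => m) => x t.1 t.2) (dq K m t) = wedge (x 0) (x 1) t := by
  rw [dq, map_sub, map_mul, map_mul, aeval_X, aeval_X, aeval_X, aeval_X]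
  rfl

theorem main_b : S_W5b := by
  intro C K _ _ _ m c h a hh
  refine ⟨inferInstanceAs (Finite (Fin 2)), fun _ => inferInstanceAs (Finite (Fin (m + 1))),
    fun x hx j => hx.1.1 j, ?_, ⟨Set.range h ∪ Set.range (dq K m), ?_⟩⟩
  · intro x hx y hxy
    obtain ⟨e, he, rfl⟩ := same_smul hxy
    refine ⟨pts_smul hh hx.1 he, ?_⟩
    have h1 := hx.2
    have h2 : ∀ x' : Fin 2 → Fin (m + 1) → C, wedge (x' 0) (x' 1) = 0 →
        wedge (e 0 • x' 0) (e 1 • x' 1) = 0 := fun x' h => by rw [wedge_smul, h, smul_zero]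
    exact h2 x h1
  · intro x hx
    constructor
    · rintro hx1 P (⟨k, rfl⟩ | ⟨t, rfl⟩)
      · exact hx1.1.2 k
      · exact (aeval_dq x t).trans (congrFun hx1.2 t)
    · intro hx1
      refine ⟨⟨hx, fun k => hx1 (h k) (Or.inl ⟨k, rfl⟩)⟩, ?_⟩
      funext t
      exact (aeval_dq x t).symm.trans (hx1 _ (Or.inr ⟨t, rfl⟩))

theorem main_c : S_W5c := by
  intro C K _ _ _ m c h a hh _
  have hpair : ∀ (x : Fin (m + 1) → C) (P : MvPolynomial (Crd fun _ : Fin 2 => m) K),
      aeval (pair x x) P = aeval x (rename (fun t : Crd (fun _ : Fin 2 => m) => t.2) P) := by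
    intro x P
    rw [aeval_rename]
    congr 2
    funext t
    simp only [pair, Function.comp, ite_self]
  refine ⟨⟨Ideal.span (Set.range fun k => rename (fun t : Crd (fun _ : Fin 2 => m) => t.2) (h k)), ?_⟩, ?_⟩
  · ext x
    rw [zeroLocus_span]
    constructor
    · rintro hx P ⟨k, rfl⟩
      rw [← hpair]
      exact hx k
    · intro hx k
      rw [hpair]
      exact hx _ ⟨k, rfl⟩
  · intro e x hx k
    have h1 := aeval_scale (hh k) (fun _ => e) (pair x x)
    have h2 : (fun t : Crd (fun _ : Fin 2 => m) => (fun _ : Fin 2 => e) t.1 * pair x x t) = pair (e • x) (e • x) := by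
      funext t
      simp only [pair, ite_self, Pi.smul_apply, smul_eq_mul]
    rw [h2, hx k, mul_zero] at h1
    exact h1

end Pool.Agent.H88.VL.W5
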