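import Pool.Agent.H88.VL.Stm

/-!
# Varieties of lines: the graph of the Segre embedding is closed
-/

set_option autoImplicit false

open MvPolynomial Pool.Agent.Y129.TA Pool.Agent.Y129.TB Pool.Agent.Y143 Pool.Agent.X271.TN

namespace Pool.Agent.H88.VL.W5d

/-- The value of a multihomogeneous polynomial at a point scaled in each factor. -/
theorem aeval_scale {r : ℕ} {m : Fin r → ℕ} {C K : Type} [Field C] [Field K] [Algebra K C]
    {P : MvPolynomial (Crd m) K} {d : Fin r → ℕ} (hP : MultiHom P d) {z w : Crd m → C}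
    (c : Fin r → C) (hw : ∀ t, w t = c t.1 * z t) :
    aeval w P = (∏ κ, c κ ^ d κ) * aeval z P := by
  rw [aeval_def, aeval_def, eval₂_eq', eval₂_eq', Finset.mul_sum]
  refine Finset.sum_congr rfl fun α hα => ?_
  have h1 : ∏ t : Crd m, w t ^ α t = (∏ κ, c κ ^ d κ) * ∏ t : Crd m, z t ^ α t := by
    have h2 : ∏ t : Crd m, w t ^ α t = (∏ t : Crd m, c t.1 ^ α t) * ∏ t : Crd m, z t ^ α t := by
      rw [← Finset.prod_mul_distrib]
      exact Finset.prod_congr rfl fun t _ => by rw [hw, mul_pow]
    rw [h2]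
    congr 1
    rw [Fintype.prod_sigma]
    refine Finset.prod_congr rfl fun κ _ => ?_
    rw [← hP α hα κ, ← Finset.prod_pow_eq_pow_sum]
  rw [h1]
  ring

theorem graph_scale {C : Type} [Field C] (_ : ℕ) {n n' p p' q q' N N' P P' Q Q' e₀ e₁ e₂ : C}
    (h1 : N = e₀ * n) (h2 : N' = e₀ * n') (h3 : P = e₁ * p) (h4 : Q = e₂ * q)
    (h5 : P' = e₁ * p') (h6 : Q' = e₂ * q') (h : n * (p * q) = n' * (p' * q')) :
    N * (P * Q) = N' * (P' * Q') := by
  rw [h1, h2, h3, h4, h5, h6]
  linear_combination (e₀ * e₁ * e₂) * h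

/-- W5d -/
theorem main : S_W5d := by
  intro C K _ _ _ m c h a hh
  refine ⟨?_, ?_, ?_, ?_, ?_⟩
  · exact (inferInstance : Finite (Option (Fin 2)))
  · intro j
    match j with
    | none => exact (inferInstance : Finite (Fin (segN m + 1)))
    | some j => exact (inferInstance : Finite (Fin (m + 1)))
  · intro x hx j
    match j with
    | none => exact hx.2.1
    | some j => exact hx.1.1 j
  · intro x hx y hy
    obtain ⟨⟨h1, h2⟩, h3, h4⟩ := hx
    choose e he hye using hy
    have hs : ∀ (j : Fin 2) (i : Fin (m + 1)), y (some j) i = e (some j) * x (some j) i := by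
      intro j i
      exact congrFun (hye (some j)) i
    have hn : ∀ i : Fin (segN m + 1), y none i = e none * x none i := by
      intro i
      exact congrFun (hye none) i
    refine ⟨⟨?_, ?_⟩, ?_, ?_⟩
    · intro j h0
      refine h1 j ?_
      funext i
      have h5 : y (some j) i = 0 := congrFun h0 i
      rw [hs j i] at h5
      exact (mul_eq_zero.mp h5).resolve_left (he (some j))
    · intro k
      have h5 := aeval_scale (C := C) (hh k)
        (z := fun t : Crd (fun _ : Fin 2 => m) => x (some t.1) t.2)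
        (w := fun t : Crd (fun _ : Fin 2 => m) => y (some t.1) t.2) (fun j => e (some j))
        (fun t => hs t.1 t.2)
      have h6 : aeval (fun t : Crd (fun _ : Fin 2 => m) => x (some t.1) t.2) (h k) = 0 := h2 k
      rw [h6, mul_zero] at h5
      exact h5
    · intro h0
      refine h3 ?_
      funext i
      have h5 : y none i = 0 := congrFun h0 i
      rw [hn i] at h5
      exact (mul_eq_zero.mp h5).resolve_left (he none)
    · intro k l
      have h5 := h4 k l
      exact graph_scale m (hn k) (hn l) (hs 0 (segE m l).1) (hs 1 (segE m l).2)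
        (hs 0 (segE m k).1) (hs 1 (segE m k).2) h5
  · let T := (j : Option (Fin 2)) × ext (Fin (segN m + 1)) (fun _ : Fin 2 => Fin (m + 1)) j
    let g : Crd (fun _ : Fin 2 => m) → T := fun t => ⟨some t.1, t.2⟩
    let s : Fin (segN m + 1) → T := fun k => ⟨none, k⟩
    let u : Fin 2 → Fin (m + 1) → T := fun j i => ⟨some j, i⟩
    refine ⟨Set.range (fun k : Fin c => rename g (h k)) ∪
      Set.range (fun t : Fin (segN m + 1) × Fin (segN m + 1) =>
        (X (s t.1) * (X (u 0 (segE m t.2).1) * X (u 1 (segE m t.2).2)) -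
        X (s t.2) * (X (u 0 (segE m t.1).1) * X (u 1 (segE m t.1).2)) : MvPolynomial T K)), ?_⟩
    intro x hx
    have key : ∀ (T : Type) (y : T → C) (a b c' d e f : T),
        aeval y (X a * (X b * X c') - X d * (X e * X f) : MvPolynomial T K) =
          y a * (y b * y c') - y d * (y e * y f) := by
      intro T y a b c' d e f
      simp
    constructor
    · rintro ⟨⟨h1, h2⟩, h3, h4⟩ P hP
      rcases hP with ⟨k, rfl⟩ | ⟨⟨k, l⟩, rfl⟩
      · change aeval (fun t : T => x t.1 t.2) (rename g (h k)) = 0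
        rw [aeval_rename]
        exact h2 k
      · exact (key T (fun t => x t.1 t.2) (s k) (u 0 (segE m l).1) (u 1 (segE m l).2)
          (s l) (u 0 (segE m k).1) (u 1 (segE m k).2)).trans (sub_eq_zero.mpr (h4 k l))
    · intro hP
      refine ⟨⟨fun j => hx (some j), fun k => ?_⟩, hx none, fun k l => ?_⟩
      · have h5 : aeval (fun t : T => x t.1 t.2) (rename g (h k)) = 0 := hP _ (Or.inl ⟨k, rfl⟩)
        rw [aeval_rename] at h5
        exact h5
      · have h5 := hP _ (Or.inr ⟨(k, l), rfl⟩)
        exact sub_eq_zero.mp ((key T (fun t => x t.1 t.2) (s k) (u 0 (segE m l).1)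
          (u 1 (segE m l).2) (s l) (u 0 (segE m k).1) (u 1 (segE m k).2)).symm.trans h5)

end Pool.Agent.H88.VL.W5d
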