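import Pool.Agent.H88.VL.Stm

/-! # Project VL, W6a (helper72) -/

set_option autoImplicit false

open MvPolynomial Pool.Agent.Y129.TA Pool.Agent.Y129.TB Pool.Agent.Y143 Pool.Agent.X271.TN

namespace Pool.Agent.H88.VL.W6a

open Pool.Agent.H88.VL

variable {C : Type} [Field C] {m : ℕ}

theorem wedge_comb (u w : Fin (m + 1) → C) (s t s' t' : C) :
    wedge (s • u + t • w) (s' • u + t' • w) = (s * t' - s' * t) • wedge u w := by
  funext ⟨i, j⟩
  simp only [wedge, Pi.add_apply, Pi.smul_apply, smul_eq_mul]
  ring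

theorem span {u w x : Fin (m + 1) → C} (h : wedge u w ≠ 0)
    (hx : ∀ i j k : Fin (m + 1), x i * wedge u w (j, k) - x j * wedge u w (i, k) +
      x k * wedge u w (i, j) = 0) : ∃ s t : C, x = s • u + t • w := by
  obtain ⟨⟨j, k⟩, hjk⟩ : ∃ p, wedge u w p ≠ 0 := by
    by_contra hcon
    push Not at hcon
    exact h (funext hcon)
  refine ⟨(x j * w k - x k * w j) / wedge u w (j, k), (x k * u j - x j * u k) / wedge u w (j, k),
    ?_⟩
  funext i
  have h1 := hx i j k
  simp only [Pi.add_apply, Pi.smul_apply, smul_eq_mul]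
  have h2 : x i * wedge u w (j, k) =
      (x j * w k - x k * w j) * u i + (x k * u j - x j * u k) * w i := by
    have h3 : wedge u w (i, k) = u i * w k - u k * w i := rfl
    have h4 : wedge u w (i, j) = u i * w j - u j * w i := rfl
    rw [h3, h4] at h1
    linear_combination h1
  field_simp
  linear_combination h2

/-- the polynomial identity: if a polynomial vanishes at `(x, y + r z)` for all `r ≠ 0` it does
at `(x, y)` -/
theorem lim {K : Type} [Field K] [Algebra K C] [Infinite C]
    (P : MvPolynomial (Crd fun _ : Fin 2 => m) K) (x y z : Fin (m + 1) → C)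
    (h : ∀ r : C, r ≠ 0 → aeval (pair x (y + r • z)) P = 0) : aeval (pair x y) P = 0 := by
  obtain ⟨Q, hQ⟩ : ∃ Q : Polynomial C, Q = aeval (fun t : Crd (fun _ : Fin 2 => m) =>
      if t.1 = 0 then Polynomial.C (x t.2)
        else Polynomial.C (y t.2) + Polynomial.X * Polynomial.C (z t.2)) P := ⟨_, rfl⟩
  have hev : ∀ r : C, Q.eval r = aeval (pair x (y + r • z)) P := by
    intro r
    have h1 : Q.eval r = (Polynomial.aeval r : Polynomial C →ₐ[C] C) Q := by
      rw [Polynomial.coe_aeval_eq_eval]
    rw [h1, hQ]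
    have h2 := (MvPolynomial.comp_aeval_apply (R := K)
      (f := fun t : Crd (fun _ : Fin 2 => m) =>
        if t.1 = 0 then Polynomial.C (x t.2)
          else Polynomial.C (y t.2) + Polynomial.X * Polynomial.C (z t.2))
      ((Polynomial.aeval r : Polynomial C →ₐ[C] C).restrictScalars K) P)
    have h3 : ((Polynomial.aeval r : Polynomial C →ₐ[C] C).restrictScalars K)
        (aeval (fun t : Crd (fun _ : Fin 2 => m) =>
        if t.1 = 0 then Polynomial.C (x t.2)
          else Polynomial.C (y t.2) + Polynomial.X * Polynomial.C (z t.2)) P) =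
        (Polynomial.aeval r : Polynomial C →ₐ[C] C)
        (aeval (fun t : Crd (fun _ : Fin 2 => m) =>
        if t.1 = 0 then Polynomial.C (x t.2)
          else Polynomial.C (y t.2) + Polynomial.X * Polynomial.C (z t.2)) P) := rfl
    rw [← h3, h2]
    congr 1
    congr 1
    funext ⟨κ, i⟩
    unfold pair
    by_cases hκ : κ = 0
    · simp [hκ]
    · simp [hκ]
      ring
  have hQ0 : Q = 0 := by
    apply Polynomial.eq_zero_of_infinite_isRoot
    apply Set.Infinite.mono (s := {r : C | r ≠ 0})
    · intro r hr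
      show Q.eval r = 0
      rw [hev]
      exact h r hr
    · have : ({r : C | r ≠ 0} : Set C) = {0}ᶜ := by ext r; simp
      rw [this]
      exact (Set.finite_singleton (0 : C)).infinite_compl
  have := hev 0
  rw [hQ0, zero_smul, add_zero] at this
  rw [← this]
  simp

theorem main : S_W6a := by
  intro C K _ _ _ _ m c X h a hcut z hz
  obtain ⟨⟨⟨hL0, hLX⟩, hx0, hx⟩, hy0, hy⟩ := hz
  obtain ⟨L, hL⟩ : ∃ L : Fin (m + 1) × Fin (m + 1) → C, L = z (some (some ())) := ⟨_, rfl⟩
  obtain ⟨x, hxz⟩ : ∃ x : Fin (m + 1) → C, x = z (some none) := ⟨_, rfl⟩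
  obtain ⟨y, hyz⟩ : ∃ y : Fin (m + 1) → C, y = z none := ⟨_, rfl⟩
  have hL0' : L ≠ 0 := by rw [hL]; exact hL0
  have hLX' : L ∈ X := by rw [hL]; exact hLX
  have hx0' : x ≠ 0 := by rw [hxz]; exact hx0
  have hy0' : y ≠ 0 := by rw [hyz]; exact hy0
  have hx' : ∀ i j k : Fin (m + 1), x i * L (j, k) - x j * L (i, k) + x k * L (i, j) = 0 := by
    rw [hxz, hL]; exact hx
  have hy' : ∀ i j k : Fin (m + 1), y i * L (j, k) - y j * L (i, k) + y k * L (i, j) = 0 := by
    rw [hyz, hL]; exact hy
  obtain ⟨u, w, huw⟩ := hcut.lines L hLX'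
  rw [huw] at hL0' hLX' hx' hy'
  obtain ⟨s, t, hst⟩ := span hL0' hx'
  obtain ⟨s', t', hst'⟩ := span hL0' hy'
  -- a pair of different points of the line
  have hne : ∀ s₁ t₁ s₂ t₂ : C, s₁ * t₂ - s₂ * t₁ ≠ 0 → ∀ j,
      aeval (pair (s₁ • u + t₁ • w) (s₂ • u + t₂ • w)) (h j) = 0 := by
    intro s₁ t₁ s₂ t₂ hd j
    have h1 : wedge (s₁ • u + t₁ • w) (s₂ • u + t₂ • w) ≠ 0 := by
      rw [wedge_comb]
      exact smul_ne_zero hd hL0'
    refine (hcut.cut _ _ h1).1 ?_ j
    rw [wedge_comb]
    exact hcut.cone.2 _ _ hLX'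
  have hall : ∀ j, aeval (pair x y) (h j) = 0 := by
    intro j
    by_cases hd : s * t' - s' * t = 0
    · rcases eq_or_ne t 0 with ht | ht
      · have hs : s ≠ 0 := by
          intro hs
          apply hx0'
          rw [hst, hs, ht]; simp
        apply lim (h j) x y w
        intro r hr
        have h1 : y + r • w = s' • u + (t' + r) • w := by rw [hst']; module
        rw [h1, hst]
        apply hne
        have : s * (t' + r) - s' * t = s * r := by linear_combination hd
        rw [this]
        exact mul_ne_zero hs hr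
      · apply lim (h j) x y u
        intro r hr
        have h1 : y + r • u = (s' + r) • u + t' • w := by rw [hst']; module
        rw [h1, hst]
        apply hne
        have : s * t' - (s' + r) * t = -(r * t) := by linear_combination hd
        rw [this]
        exact neg_ne_zero.2 (mul_ne_zero hr ht)
    · rw [hst, hst']
      exact hne _ _ _ _ hd j
  have hpair : (fun t : Crd (fun _ : Fin 2 => m) => z (rhoA t.1) (rhoE m t.1 t.2)) = pair x y := by
    funext ⟨κ, i⟩
    fin_cases κ
    · simp only [pair, hxz]; rfl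
    · simp only [pair, hyz]; rfl
  refine ⟨?_, ?_⟩
  · intro j
    fin_cases j
    · exact hx0
    · exact hy0
  · intro k
    have := hall k
    rw [← hpair] at this
    exact this

end Pool.Agent.H88.VL.W6a
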