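import Pool.Agent.H88.VL.Stm

/-!
# W6b: the map `(L, x, y) ↦ (x, y)` is bijective over the pairs of different points
-/

set_option autoImplicit false

open MvPolynomial Pool.Agent.Y129.TA Pool.Agent.Y129.TB Pool.Agent.Y143 Pool.Agent.X271.TN

namespace Pool.Agent.H88.VL.W6b

variable {C : Type} [Field C] {m : ℕ}

/-- a point is incident with the line of a nonzero Pluecker vector: it is a combination -/
theorem comb (h2a : S_W2a) (h2b : S_W2b) {u w L p : _} (hL : L = wedge (C := C) (m := m) u w) (h0 : L ≠ 0)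
    (hp : ∀ i j k : Fin (m + 1), p i * L (j, k) - p j * L (i, k) + p k * L (i, j) = 0) :
    ∃ s t : C, p = s • u + t • w := by
  subst hL
  exact (h2b C m u w p ((h2a C m u w).1 h0)).1 hp

/-- the line through two incident points -/
theorem prop (h2a : S_W2a) (h2b : S_W2b) (h2c : S_W2c) {u w L p q : _}
    (hL : L = wedge (C := C) (m := m) u w) (h0 : L ≠ 0)
    (hp : ∀ i j k : Fin (m + 1), p i * L (j, k) - p j * L (i, k) + p k * L (i, j) = 0)
    (hq : ∀ i j k : Fin (m + 1), q i * L (j, k) - q j * L (i, k) + q k * L (i, j) = 0) :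
    ∃ D : C, wedge p q = D • L := by
  obtain ⟨s, t, rfl⟩ := comb h2a h2b hL h0 hp
  obtain ⟨s', t', rfl⟩ := comb h2a h2b hL h0 hq
  exact ⟨_, by rw [h2c C m u w s t s' t', ← hL]⟩

theorem wedge_smul (c0 c1 : C) (p q : Fin (m + 1) → C) :
    wedge (c0 • p) (c1 • q) = (c0 * c1) • wedge p q := by
  funext t
  simp only [wedge, Pi.smul_apply, smul_eq_mul]
  ring

/-- the line is determined by two of its points -/
theorem core (h2a : S_W2a) (h2b : S_W2b) (h2c : S_W2c) {L L' : Fin (m + 1) × Fin (m + 1) → C}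
    {p q p' q' u w u' w' : Fin (m + 1) → C} (hL : L = wedge u w) (hL' : L' = wedge u' w')
    (hL0 : L ≠ 0) (hL0' : L' ≠ 0)
    (hp : ∀ i j k : Fin (m + 1), p i * L (j, k) - p j * L (i, k) + p k * L (i, j) = 0)
    (hq : ∀ i j k : Fin (m + 1), q i * L (j, k) - q j * L (i, k) + q k * L (i, j) = 0)
    (hp' : ∀ i j k : Fin (m + 1), p' i * L' (j, k) - p' j * L' (i, k) + p' k * L' (i, j) = 0)
    (hq' : ∀ i j k : Fin (m + 1), q' i * L' (j, k) - q' j * L' (i, k) + q' k * L' (i, j) = 0)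
    {c0 c1 : C} (hc0 : c0 ≠ 0) (hc1 : c1 ≠ 0) (k0 : p' = c0 • p) (k1 : q' = c1 • q)
    (hw : wedge p q ≠ 0) : ∃ c : C, c ≠ 0 ∧ L' = c • L := by
  obtain ⟨D, hD⟩ := prop h2a h2b h2c hL hL0 hp hq
  obtain ⟨D', hD'⟩ := prop h2a h2b h2c hL' hL0' hp' hq'
  have hww : wedge p' q' = (c0 * c1) • wedge p q := by
    rw [k0, k1]
    exact wedge_smul c0 c1 _ _
  have hD0 : D ≠ 0 := by
    rintro rfl
    rw [zero_smul] at hD
    exact hw hD
  have hw' : wedge p' q' ≠ 0 := by
    rw [hww]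
    exact smul_ne_zero (mul_ne_zero hc0 hc1) hw
  have hD0' : D' ≠ 0 := by
    rintro rfl
    rw [zero_smul] at hD'
    exact hw' hD'
  refine ⟨D'⁻¹ * (c0 * c1 * D), mul_ne_zero (inv_ne_zero hD0') (mul_ne_zero (mul_ne_zero hc0 hc1) hD0), ?_⟩
  have h1 : D' • L' = (c0 * c1 * D) • L := by rw [← hD', hww, hD, smul_smul]
  rw [mul_smul, ← h1, smul_smul, inv_mul_cancel₀ hD0', one_smul]

theorem main (h2a : S_W2a) (h2b : S_W2b) (h2c : S_W2c) : S_W6b := by
  intro C K _ _ _ m c X h a hX ρ hρa hρ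
  have wd : ∀ z : ∀ _ : Fin 2, Fin (m + 1) → C, z ∈ (ZS (C := C) h).pts → z ∉ diagZ h →
      wedge (z 0) (z 1) ≠ 0 := by
    intro z hz hz' h0
    exact hz' ⟨hz, h0⟩
  have pr : ∀ z : ∀ _ : Fin 2, Fin (m + 1) → C,
      pair (z 0) (z 1) = fun t : Crd (fun _ : Fin 2 => m) => z t.1 t.2 := by
    intro z
    funext t
    obtain ⟨j, i⟩ := t
    fin_cases j <;> simp [pair]
  constructor
  · intro (z : ∀ _ : Fin 2, Fin (m + 1) → C) hz hz'
    have hw := wd z hz hz'
    have hX1 : wedge (z 0) (z 1) ∈ X := by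
      rw [hX.cut _ _ hw]
      intro j
      rw [pr z]
      exact hz.2 j
    refine ⟨glue (z 1) (glue (z 0) fun _ : Unit => wedge (z 0) (z 1)), ?_, ?_⟩
    · refine ⟨⟨⟨hw, hX1⟩, hz.1 0, fun i j k => ?_⟩, hz.1 1, fun i j k => ?_⟩
      · show z 0 i * wedge (z 0) (z 1) (j, k) - z 0 j * wedge (z 0) (z 1) (i, k) +
          z 0 k * wedge (z 0) (z 1) (i, j) = 0
        simp only [wedge]
        ring
      · show z 1 i * wedge (z 0) (z 1) (j, k) - z 1 j * wedge (z 0) (z 1) (i, k) +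
          z 1 k * wedge (z 0) (z 1) (i, j) = 0
        simp only [wedge]
        ring
    · have e : ∀ j : Fin 2, ρ.app (glue (z 1) (glue (z 0) fun _ : Unit => wedge (z 0) (z 1))) j = z j := by
        intro j
        funext i
        refine (hρ _ j i).trans ?_
        fin_cases j <;> rfl
      exact fun j => ⟨1, one_ne_zero, by rw [one_smul]; exact (e j).symm⟩
  · intro (x : ∀ j : Option (Option Unit), ext (Fin (m + 1)) (ext (Fin (m + 1))
      fun _ : Unit => Fin (m + 1) × Fin (m + 1)) j → C) hx (x' : ∀ j : Option (Option Unit),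
      ext (Fin (m + 1)) (ext (Fin (m + 1)) fun _ : Unit => Fin (m + 1) × Fin (m + 1)) j → C) hx' hoff hsame
    have e0 : ∀ x : (∀ j : Option (Option Unit), ext (Fin (m + 1)) (ext (Fin (m + 1))
        fun _ : Unit => Fin (m + 1) × Fin (m + 1)) j → C), ρ.app x (0 : Fin 2) = x (some none) := by
      intro x; funext i; exact hρ x (0 : Fin 2) i
    have e1 : ∀ x : (∀ j : Option (Option Unit), ext (Fin (m + 1)) (ext (Fin (m + 1))
        fun _ : Unit => Fin (m + 1) × Fin (m + 1)) j → C), ρ.app x (1 : Fin 2) = x none := by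
      intro x; funext i; exact hρ x (1 : Fin 2) i
    have hmem : ρ.app x ∈ (ZS (C := C) h).pts := ρ.maps x hx
    have hw := wd _ hmem hoff
    obtain ⟨c0, hc0, k0⟩ := hsame (0 : Fin 2)
    obtain ⟨c1, hc1, k1⟩ := hsame (1 : Fin 2)
    rw [e0, e0] at k0
    rw [e1, e1] at k1
    rw [e0, e1] at hw
    obtain ⟨⟨⟨hL0, hLX⟩, -, hp⟩, -, hq⟩ := hx
    obtain ⟨⟨⟨hL0', hLX'⟩, -, hp'⟩, -, hq'⟩ := hx'
    obtain ⟨u, w, huw⟩ := hX.lines _ hLX
    obtain ⟨u', w', huw'⟩ := hX.lines _ hLX'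
    have hL := core h2a h2b h2c huw huw' hL0 hL0' hp hq hp' hq' hc0 hc1 k0 k1 hw
    intro j
    match j with
    | none => exact ⟨c1, hc1, k1⟩
    | some none => exact ⟨c0, hc0, k0⟩
    | some (some ()) => exact hL

end Pool.Agent.H88.VL.W6b
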