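import Pool.Agent.H88.VL.Stm

/-!
# Varieties of lines, W7 (helper91): Segre coordinates
-/

set_option autoImplicit false

open MvPolynomial Pool.Agent.Y129.TA Pool.Agent.Y129.TB Pool.Agent.Y143 Pool.Agent.X271.TN

universe u v

namespace Pool.Agent.H88.VL.W7

/-- multihomogeneous polynomials and scaling -/
lemma multiHom_scale {r : ℕ} {m : Fin r → ℕ} {K C : Type} [Field K] [Field C] [Algebra K C]
    {P : MvPolynomial (Crd m) K} {d : Fin r → ℕ} (h : MultiHom P d) (c : Fin r → C) (z : Crd m → C) :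
    aeval (fun t : Crd m => c t.1 * z t) P = (∏ κ, c κ ^ d κ) * aeval z P := by
  rw [aeval_def, aeval_def, eval₂_eq', eval₂_eq', Finset.mul_sum]
  refine Finset.sum_congr rfl fun α hα => ?_
  have e : ∏ t : Crd m, (c t.1 * z t) ^ α t = (∏ κ, c κ ^ d κ) * ∏ t : Crd m, z t ^ α t := by
    simp only [mul_pow, Finset.prod_mul_distrib]
    congr 1
    rw [Fintype.prod_sigma]
    refine Finset.prod_congr rfl fun κ _ => ?_
    have e1 : ∏ i : Fin (m κ + 1), c κ ^ α ⟨κ, i⟩ = c κ ^ d κ := by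
      rw [Finset.prod_pow_eq_pow_sum, h α hα κ]
    exact e1
  rw [e]
  ring

variable {C : Type} [Field C]

/-- proportional vectors -/
lemma prop {ι : Type} {s v : ι → C} (hs : s ≠ 0) (hv : v ≠ 0) (h : ∀ k l, s k * v l = s l * v k) :
    ∃ c : C, c ≠ 0 ∧ s = c • v := by
  obtain ⟨l, hl⟩ := Function.ne_iff.1 hv
  rw [Pi.zero_apply] at hl
  have e : s = (s l / v l) • v := by
    funext k
    rw [Pi.smul_apply, smul_eq_mul, div_mul_eq_mul_div, eq_div_iff hl]
    exact h k l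
  refine ⟨s l / v l, fun h0 => hs ?_, e⟩
  rw [e, h0, zero_smul]

/-- proportional tensors have proportional factors -/
lemma tensor {ι κ : Type} {x x' : ι → C} {y y' : κ → C} {μ : C} (hμ : μ ≠ 0) (hx' : x' ≠ 0) (hy' : y' ≠ 0)
    (h : ∀ i j, x' i * y' j = μ * (x i * y j)) :
    (∃ c : C, c ≠ 0 ∧ x' = c • x) ∧ ∃ c : C, c ≠ 0 ∧ y' = c • y := by
  have := hμ
  constructor
  · obtain ⟨j, hj⟩ := Function.ne_iff.1 hy'
    rw [Pi.zero_apply] at hj
    have e : x' = (μ * y j / y' j) • x := by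
      funext i
      rw [Pi.smul_apply, smul_eq_mul, div_mul_eq_mul_div, eq_div_iff hj, h i j]
      ring
    refine ⟨μ * y j / y' j, fun h0 => hx' ?_, e⟩
    rw [e, h0, zero_smul]
  · obtain ⟨i, hi⟩ := Function.ne_iff.1 hx'
    rw [Pi.zero_apply] at hi
    have e : y' = (μ * x i / x' i) • y := by
      funext j
      rw [Pi.smul_apply, smul_eq_mul, div_mul_eq_mul_div, eq_div_iff hi, mul_comm, h i j]
      ring
    refine ⟨μ * x i / x' i, fun h0 => hy' ?_, e⟩
    rw [e, h0, zero_smul]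

variable {m : ℕ}

/-- the Segre coordinates -/
def sg (x y : Fin (m + 1) → C) : Fin (segN m + 1) → C := fun k => x (segE m k).1 * y (segE m k).2

lemma sg_apply (x y : Fin (m + 1) → C) (i j : Fin (m + 1)) : sg x y ((segE m).symm (i, j)) = x i * y j := by
  simp [sg]

lemma sg_ne {x y : Fin (m + 1) → C} (hx : x ≠ 0) (hy : y ≠ 0) : sg x y ≠ 0 := by
  obtain ⟨i, hi⟩ := Function.ne_iff.1 hx
  obtain ⟨j, hj⟩ := Function.ne_iff.1 hy
  rw [Pi.zero_apply] at hi hj
  intro h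
  have := congrFun h ((segE m).symm (i, j))
  rw [sg_apply, Pi.zero_apply] at this
  exact mul_ne_zero hi hj this

lemma aeval_segre {K : Type} [Field K] [Algebra K C] (z : Crd (fun _ : Fin 2 => m) → C) (k : Fin (segN m + 1)) :
    aeval z (segre K m k) = sg (fun i => z ⟨0, i⟩) (fun i => z ⟨1, i⟩) k := by
  simp [segre, sg]

/-- the points of `GS` -/
lemma gs_pts {K : Type} [Field K] [Algebra K C] {c : ℕ}
    {h : Fin c → MvPolynomial (Crd fun _ : Fin 2 => m) K}
    {z : ∀ j : Option (Fin 2), ext (Fin (segN m + 1)) (fun _ => Fin (m + 1)) j → C}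
    (hz : z ∈ (GS (C := C) h).pts) : ∃ s : C, s ≠ 0 ∧ z none = s • sg (z (some 0)) (z (some 1)) ∧
      z (some 0) ≠ 0 ∧ z (some 1) ≠ 0 ∧
      ∀ k, aeval (fun t : Crd (fun _ : Fin 2 => m) => z (some t.1) t.2) (h k) = 0 := by
  obtain ⟨⟨h1, h2⟩, h3, h4⟩ := hz
  have h10 : (z (some 0) : Fin (m + 1) → C) ≠ 0 := h1 0
  have h11 : (z (some 1) : Fin (m + 1) → C) ≠ 0 := h1 1
  obtain ⟨s, hs, he⟩ := prop (s := (z none : Fin (segN m + 1) → C)) (v := sg (z (some 0)) (z (some 1))) h3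
    (sg_ne h10 h11) h4
  exact ⟨s, hs, he, h10, h11, h2⟩

/-- the point of `GS` over a point of `ZS` -/
lemma gs_mem {K : Type} [Field K] [Algebra K C] {c : ℕ}
    {h : Fin c → MvPolynomial (Crd fun _ : Fin 2 => m) K} {y : Fin 2 → Fin (m + 1) → C}
    (hy : y ∈ (ZS (C := C) h).pts) :
    glue (κ := fun _ : Fin 2 => Fin (m + 1)) (sg (y 0) (y 1)) y ∈ (GS (C := C) h).pts := by
  obtain ⟨h1, h2⟩ := hy
  refine ⟨⟨h1, h2⟩, sg_ne (h1 0) (h1 1), fun k l => ?_⟩
  change sg (y 0) (y 1) k * sg (y 0) (y 1) l = sg (y 0) (y 1) l * sg (y 0) (y 1) k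
  ring

/-- the points, with the types of their coordinates -/
abbrev Pt (C : Type) (m : ℕ) : Type :=
  ∀ j : Option (Fin 2), ext (Fin (segN m + 1)) (fun _ : Fin 2 => Fin (m + 1)) j → C

lemma mem_mimage {K : Type} [Field K] [Algebra K C] {c : ℕ}
    {h : Fin c → MvPolynomial (Crd fun _ : Fin 2 => m) K} {a : Fin c → Fin 2 → ℕ}
    (hh : ∀ j, MultiHom (h j) (a j)) {s : C} (hs : s ≠ 0) {v : Fin (segN m + 1) → C}
    {x : Fin 2 → Fin (m + 1) → C} (he : v = s • sg (x 0) (x 1)) (hx : ∀ j, x j ≠ 0)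
    (h2 : ∀ k, aeval (fun t : Crd (fun _ : Fin 2 => m) => x t.1 t.2) (h k) = 0) :
    v ∈ mimage C h (segre K m) := by
  right
  set cc : Fin 2 → C := fun κ => if κ = 0 then s else 1 with hcc
  refine ⟨fun t => cc t.1 * x t.1 t.2, fun κ => ?_, fun j => ?_, fun k => ?_⟩
  · have hκ : cc κ ≠ 0 := by
      rw [hcc]
      by_cases h' : κ = 0
      · simp [h', hs]
      · simp [h']
    obtain ⟨i, hi⟩ := Function.ne_iff.1 (hx κ)
    exact ⟨i, mul_ne_zero hκ hi⟩
  · rw [multiHom_scale (hh j) cc, h2 j, mul_zero]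
  · rw [aeval_segre, he]
    simp [sg, hcc]
    ring

lemma inj_a {z z' : Pt C m} {s s' : C} (hs : s ≠ 0) (hs' : s' ≠ 0)
    (he : (z none : Fin (segN m + 1) → C) = s • sg (z (some 0)) (z (some 1)))
    (he' : (z' none : Fin (segN m + 1) → C) = s' • sg (z' (some 0)) (z' (some 1)))
    (h0' : (z' (some 0) : Fin (m + 1) → C) ≠ 0) (h1' : (z' (some 1) : Fin (m + 1) → C) ≠ 0)
    {r : C} (hr : r ≠ 0) (e1 : (z' none : Fin (segN m + 1) → C) = r • z none) : Same z z' := by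
  have e2 : ∀ i j, (z' (some 0) : Fin (m + 1) → C) i * (z' (some 1) : Fin (m + 1) → C) j =
      (r * s / s') * ((z (some 0) : Fin (m + 1) → C) i * (z (some 1) : Fin (m + 1) → C) j) := by
    intro i j
    have e3 : s' * sg (z' (some 0)) (z' (some 1)) ((segE m).symm (i, j)) =
        r * (s * sg (z (some 0)) (z (some 1)) ((segE m).symm (i, j))) := by
      rw [he, he'] at e1
      exact congrFun e1 ((segE m).symm (i, j))
    rw [sg_apply, sg_apply] at e3
    rw [div_mul_eq_mul_div, eq_div_iff hs', mul_comm, e3]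
    ring
  obtain ⟨t1, t2⟩ := tensor (div_ne_zero (mul_ne_zero hr hs) hs') h0' h1' e2
  intro j
  match j with
  | none => exact ⟨r, hr, e1⟩
  | some 0 => exact t1
  | some 1 => exact t2

lemma sg_rel {v v' : Fin (segN m + 1) → C} {x y x' y' : Fin (m + 1) → C} {s s' r0 r1 : C} (hs : s ≠ 0)
    (he : v = s • sg x y) (he' : v' = s' • sg x' y') (k0 : x' = r0 • x) (k1 : y' = r1 • y) :
    v' = (s' * r0 * r1 / s) • v := by
  rw [he', he, k0, k1]
  funext k
  simp only [sg, Pi.smul_apply, smul_eq_mul]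
  field_simp

lemma inj_b {z z' : Pt C m} {s s' : C} (hs : s ≠ 0) (hs' : s' ≠ 0)
    (he : (z none : Fin (segN m + 1) → C) = s • sg (z (some 0)) (z (some 1)))
    (he' : (z' none : Fin (segN m + 1) → C) = s' • sg (z' (some 0)) (z' (some 1)))
    (key : ∀ j : Fin 2, ∃ r : C, r ≠ 0 ∧ (z' (some j) : Fin (m + 1) → C) = r • z (some j)) : Same z z' := by
  obtain ⟨r0, hr0, k0⟩ := key 0
  obtain ⟨r1, hr1, k1⟩ := key 1
  intro j
  match j with
  | none =>
    refine ⟨s' * r0 * r1 / s, div_ne_zero (mul_ne_zero (mul_ne_zero hs' hr0) hr1) hs, ?_⟩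
    exact sg_rel hs he he' k0 k1
  | some j => exact key j

theorem main_a : S_W7a := by
  intro C K _ _ _ m c h a hh
  refine ⟨fun (z : Pt C m) hz => ?_, fun f hf => ⟨fun (y : Unit → Fin (segN m + 1) → C) hy _ => ?_,
    fun (x : Pt C m) hx (x' : Pt C m) hx' _ hs => ?_⟩⟩
  · obtain ⟨s, hs, he, h0, h1, h2⟩ := gs_pts hz
    refine mem_mimage hh hs (x := fun j => z (some j)) he (fun j => ?_) h2
    fin_cases j
    · exact h0
    · exact h1
  · obtain ⟨hy0, hy1⟩ := hy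
    rcases hy1 with h0 | ⟨z, hz1, hz2, hz3⟩
    · exact absurd h0 hy0
    · have hzz : (fun j i => z ⟨j, i⟩ : Fin 2 → Fin (m + 1) → C) ∈ (ZS (C := C) h).pts := by
        refine ⟨fun j h0 => ?_, hz2⟩
        obtain ⟨i, hi⟩ := hz1 j
        exact hi (congrFun h0 i)
      refine ⟨_, gs_mem hzz, fun j => ⟨1, one_ne_zero, ?_⟩⟩
      rw [one_smul]
      funext k
      rw [hf]
      have : y () k = sg (fun i => z ⟨0, i⟩) (fun i => z ⟨1, i⟩) k := by
        rw [hz3 k, aeval_segre]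
      exact this
  · obtain ⟨s, hs1, he, h0, h1, -⟩ := gs_pts hx
    obtain ⟨s', hs1', he', h0', h1', -⟩ := gs_pts hx'
    obtain ⟨r, hr, hr'⟩ := hs ()
    refine inj_a hs1 hs1' he he' h0' h1' hr ?_
    funext k
    have e1 : f.app x' () k = r * f.app x () k := congrFun hr' k
    rw [hf, hf] at e1
    exact e1

theorem main_b : S_W7b := by
  intro C K _ _ _ m c h f hf
  refine ⟨fun (y : Fin 2 → Fin (m + 1) → C) hy _ => ⟨_, gs_mem hy, fun j => ⟨1, one_ne_zero, ?_⟩⟩,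
    fun (x : Pt C m) hx (x' : Pt C m) hx' _ hs => ?_⟩
  · rw [one_smul]
    funext i
    rw [hf]
    rfl
  · obtain ⟨s, hs1, he, h0, h1, -⟩ := gs_pts hx
    obtain ⟨s', hs1', he', h0', h1', -⟩ := gs_pts hx'
    refine inj_b hs1 hs1' he he' fun j => ?_
    obtain ⟨r, hr, hr'⟩ := hs j
    refine ⟨r, hr, ?_⟩
    funext i
    have e1 : f.app x' j i = r * f.app x j i := congrFun hr' i
    rw [hf, hf] at e1
    exact e1

end Pool.Agent.H88.VL.W7
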