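import Pool.Agent.H88.VL.Stm
import Pool.Agent.H88.L.X271.TmFin

/-!
# Varieties of lines, step W8: the approximation of the Segre image
-/

set_option autoImplicit false

open MvPolynomial Pool.Agent.Y129.TA Pool.Agent.Y129.TB Pool.Agent.Y143 Pool.Agent.X271.TN

namespace Pool.Agent.H88.VL.W8

open Pool.Agent.H88.VL

theorem segre_multiHom (K : Type) [Field K] (m : ℕ) (k : Fin (segN m + 1)) :
    MultiHom (segre K m k) (fun _ => 1) := by
  classical
  intro α hα κ
  have h1 : segre K m k = monomial (Finsupp.single (⟨0, (segE m k).1⟩ : Crd fun _ : Fin 2 => m) 1 +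
      Finsupp.single (⟨1, (segE m k).2⟩ : Crd fun _ : Fin 2 => m) 1) 1 := by
    unfold segre
    rw [X, X, monomial_mul, one_mul]
  rw [h1] at hα
  have h2 := support_monomial_subset hα
  rw [Finset.mem_singleton] at h2
  subst h2
  have h3 : ∀ (κ' : Fin 2) (a : Fin (m + 1)),
      ∑ i : Fin (m + 1), (Finsupp.single (⟨κ', a⟩ : Crd fun _ : Fin 2 => m) 1) ⟨κ, i⟩ =
        if κ' = κ then 1 else 0 := by
    intro κ' a
    by_cases h : κ' = κ
    · subst h
      rw [if_pos rfl, Finset.sum_eq_single a]
      · exact Finsupp.single_eq_same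
      · intro b _ hb
        rw [Finsupp.single_apply, if_neg]
        intro h
        exact hb (eq_of_heq (Sigma.mk.inj h).2).symm
      · intro h
        exact absurd (Finset.mem_univ _) h
    · rw [if_neg h]
      refine Finset.sum_eq_zero fun i _ => ?_
      rw [Finsupp.single_apply, if_neg]
      intro h'
      exact h (Sigma.mk.inj h').1
  simp only [Finsupp.add_apply]
  rw [Finset.sum_add_distrib, h3, h3]
  fin_cases κ <;> simp

theorem segre_baseFree (C K : Type) [Field C] [Field K] [Algebra K C] (m c : ℕ)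
    (h : Fin c → MvPolynomial (Crd fun _ : Fin 2 => m) K) : BaseFree C h (segre K m) := by
  intro z hz _
  obtain ⟨i, hi⟩ := hz 0
  obtain ⟨j, hj⟩ := hz 1
  refine ⟨(segE m).symm (i, j), ?_⟩
  unfold segre
  rw [map_mul, aeval_X, aeval_X, Equiv.apply_symm_apply]
  exact mul_ne_zero hi hj

theorem main : S_W8 := by
  intro p _ C F K E _ _ _ _ _ _ _ _ _ T B m c d h a hh hpos hX
  obtain ⟨h1, -, h2⟩ := Pool.Agent.X271.TN.main T B hh (segre_multiHom K m)
    (fun h0 => one_ne_zero (congrFun h0 0)) (segre_baseFree C K m c h) hpos hX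
  exact ⟨h1, h2 _ subset_rfl⟩

end Pool.Agent.H88.VL.W8
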